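import Pool.Agent.Helper958.KCube

set_option autoImplicit false

namespace Pool.Agent.Helper958.Kahane

open Finset

/-- central binomial coefficients: `16^h ≤ 4h C(2h,h)²` -/
lemma central_sq (h : ℕ) (hh : 1 ≤ h) : (16 : ℝ) ^ h ≤ 4 * h * (h.centralBinom : ℝ) ^ 2 := by
  induction h, hh using Nat.le_induction with
  | base => norm_num [Nat.centralBinom]
  | succ n hn ih =>
    have h1 : ((n : ℝ) + 1) * ((n + 1).centralBinom : ℝ) = 2 * (2 * n + 1) * (n.centralBinom : ℝ) := by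
      exact_mod_cast Nat.succ_mul_centralBinom_succ n
    have hn' : (0 : ℝ) < (n : ℝ) + 1 := by positivity
    have h2 : ((n + 1).centralBinom : ℝ) = 2 * (2 * n + 1) * (n.centralBinom : ℝ) / (n + 1) := by
      rw [← h1]; field_simp
    rw [h2, pow_succ]
    push_cast
    have h3 : 4 * ((n : ℝ) + 1) * (2 * (2 * n + 1) * (n.centralBinom : ℝ) / (n + 1)) ^ 2
        = 16 * (2 * n + 1) ^ 2 / (n + 1) * (n.centralBinom : ℝ) ^ 2 := by
      field_simp
      ring
    rw [h3]
    have h4 : (64 : ℝ) * n ≤ 16 * (2 * n + 1) ^ 2 / (n + 1) := by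
      rw [le_div_iff₀ hn']
      nlinarith
    calc (16 : ℝ) ^ n * 16 ≤ (4 * n * (n.centralBinom : ℝ) ^ 2) * 16 := by
          apply mul_le_mul_of_nonneg_right ih (by norm_num)
      _ = 64 * n * (n.centralBinom : ℝ) ^ 2 := by ring
      _ ≤ _ := by
          apply mul_le_mul_of_nonneg_right h4 (by positivity)

/-- near-central binomials -/
lemma near_central (h i : ℕ) (hi : i ≤ h) :
    ((2 * h).choose h : ℝ) * (1 - (i : ℝ) ^ 2 / h) ≤ ((2 * h).choose (h - i) : ℝ) := by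
  induction i with
  | zero => simp
  | succ i ih =>
    have hi' : i ≤ h := by omega
    have hh : (0 : ℝ) < h := by
      have : 0 < h := by omega
      exact_mod_cast this
    have h0 := ih hi'
    -- recursion
    have hrec : ((2 * h).choose (h - (i + 1)) : ℝ) * (h + i + 1)
        = ((2 * h).choose (h - i) : ℝ) * (h - i) := by
      have := Nat.choose_succ_right_eq (2 * h) (h - (i + 1))
      have e1 : h - (i + 1) + 1 = h - i := by omega
      have e2 : 2 * h - (h - (i + 1)) = h + i + 1 := by omega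
      rw [e1, e2] at this
      have h3 : ((2 * h).choose (h - i) : ℝ) * ((h - i : ℕ) : ℝ)
          = ((2 * h).choose (h - (i + 1)) : ℝ) * ((h + i + 1 : ℕ) : ℝ) := by exact_mod_cast this
      rw [Nat.cast_sub hi'] at h3
      push_cast at h3
      linarith
    have hpos : (0 : ℝ) < (h : ℝ) + i + 1 := by positivity
    have hc : (0 : ℝ) ≤ ((2 * h).choose h : ℝ) := by positivity
    have hlow : ((2 * h).choose (h - i) : ℝ) * (1 - (2 * i + 1) / h)
        ≤ ((2 * h).choose (h - (i + 1)) : ℝ) := by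
      have : ((2 * h).choose (h - (i + 1)) : ℝ)
          = ((2 * h).choose (h - i) : ℝ) * ((h - i) / (h + i + 1)) := by
        rw [← mul_div_assoc, ← hrec]; field_simp
      rw [this]
      apply mul_le_mul_of_nonneg_left _ (by positivity)
      have e : ((h : ℝ) - i) / (h + i + 1) = 1 - (2 * i + 1) / (h + i + 1) := by
        field_simp; ring
      rw [e]
      have : (2 * (i : ℝ) + 1) / (h + i + 1) ≤ (2 * i + 1) / h := by
        apply div_le_div_of_nonneg_left (by positivity) hh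
        linarith [(Nat.cast_nonneg i : (0 : ℝ) ≤ (i : ℝ))]
      linarith
    rcases le_or_gt (((i : ℝ) + 1) ^ 2) (h : ℝ) with hcase | hcase
    · -- both factors nonneg
      have hy : (0 : ℝ) ≤ 1 - (2 * i + 1) / h := by
        rw [sub_nonneg, div_le_one hh]; nlinarith
      have hx : (0 : ℝ) ≤ (i : ℝ) ^ 2 / h := by positivity
      have hy2 : (0 : ℝ) ≤ (2 * i + 1) / h := by positivity
      calc ((2 * h).choose h : ℝ) * (1 - ((i + 1 : ℕ) : ℝ) ^ 2 / h)
          ≤ ((2 * h).choose h : ℝ) * ((1 - (i : ℝ) ^ 2 / h) * (1 - (2 * i + 1) / h)) := by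
            apply mul_le_mul_of_nonneg_left _ hc
            have : (((i + 1 : ℕ) : ℝ)) ^ 2 / h = (i : ℝ) ^ 2 / h + (2 * i + 1) / h := by
              push_cast; ring
            rw [this]
            nlinarith [mul_nonneg hx hy2]
        _ = (((2 * h).choose h : ℝ) * (1 - (i : ℝ) ^ 2 / h)) * (1 - (2 * i + 1) / h) := by ring
        _ ≤ ((2 * h).choose (h - i) : ℝ) * (1 - (2 * i + 1) / h) :=
            mul_le_mul_of_nonneg_right h0 hy
        _ ≤ _ := hlow
    · have : (1 - ((i + 1 : ℕ) : ℝ) ^ 2 / h) ≤ 0 := by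
        rw [sub_nonpos, one_le_div hh]; push_cast; exact hcase.le
      calc ((2 * h).choose h : ℝ) * (1 - ((i + 1 : ℕ) : ℝ) ^ 2 / h) ≤ 0 :=
            mul_nonpos_of_nonneg_of_nonpos hc this
        _ ≤ _ := by positivity

/-- `(2^s / C(s,w))² ≤ 8 s` for `w = h - d`, `s = 2h`, `2d² ≤ h` -/
lemma ratio_sq (h d : ℕ) (hh : 1 ≤ h) (hd : 2 * d ^ 2 ≤ h) :
    ((2 : ℝ) ^ (2 * h) / ((2 * h).choose (h - d))) ^ 2 ≤ 8 * (2 * h) := by
  have hdh : d ≤ h := by nlinarith
  have h1 := near_central h d hdh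
  have h2 := central_sq h hh
  have hh' : (0 : ℝ) < h := by exact_mod_cast hh
  have h3 : (1 / 2 : ℝ) ≤ 1 - (d : ℝ) ^ 2 / h := by
    have : (d : ℝ) ^ 2 / h ≤ 1 / 2 := by
      rw [div_le_div_iff₀ hh' (by norm_num)]
      have : (2 * d ^ 2 : ℝ) ≤ h := by exact_mod_cast hd
      linarith
    linarith
  have hcc : ((2 * h).choose h : ℝ) = (h.centralBinom : ℝ) := by
    rw [Nat.centralBinom_eq_two_mul_choose]
  rw [hcc] at h1
  have hcpos : (0 : ℝ) < (h.centralBinom : ℝ) := by exact_mod_cast Nat.centralBinom_pos h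
  have h4 : (h.centralBinom : ℝ) / 2 ≤ ((2 * h).choose (h - d) : ℝ) := by
    calc (h.centralBinom : ℝ) / 2 = (h.centralBinom : ℝ) * (1 / 2) := by ring
      _ ≤ (h.centralBinom : ℝ) * (1 - (d : ℝ) ^ 2 / h) := mul_le_mul_of_nonneg_left h3 hcpos.le
      _ ≤ _ := h1
  have hcd : (0 : ℝ) < ((2 * h).choose (h - d) : ℝ) := by linarith [half_pos hcpos]
  rw [div_pow, div_le_iff₀ (by positivity)]
  have h5 : ((2 : ℝ) ^ (2 * h)) ^ 2 = 16 ^ h := by
    rw [← pow_mul, show (16 : ℝ) = 2 ^ 4 by norm_num, ← pow_mul]; congr 1; ring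
  rw [h5]
  calc (16 : ℝ) ^ h ≤ 4 * h * (h.centralBinom : ℝ) ^ 2 := h2
    _ = 16 * h * ((h.centralBinom : ℝ) / 2) ^ 2 := by ring
    _ ≤ 16 * h * ((2 * h).choose (h - d) : ℝ) ^ 2 := by
        apply mul_le_mul_of_nonneg_left _ (by positivity)
        exact pow_le_pow_left₀ (by positivity) h4 2
    _ = _ := by ring

/-- `C(s,3) ≤ C(s,j)` for `3 ≤ j ≤ s - 3` -/
lemma choose_three_le (s j : ℕ) (h3 : 3 ≤ j) (hj : j + 3 ≤ s) : s.choose 3 ≤ s.choose j := by
  have key : ∀ i, 3 ≤ i → i ≤ s / 2 → s.choose 3 ≤ s.choose i := by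
    intro i hi
    induction i, hi using Nat.le_induction with
    | base => intro _; exact le_rfl
    | succ n hn ih =>
      intro h
      exact (ih (by omega)).trans (Nat.choose_le_succ_of_lt_half_left (by omega))
  rcases le_or_gt j (s / 2) with h | h
  · exact key j h3 h
  · rw [← Nat.choose_symm (show j ≤ s by omega)]
    exact key (s - j) (by omega) (by omega)

lemma choose_three_lb (s : ℕ) (hs : 4 ≤ s) : (s : ℝ) ^ 3 / 16 ≤ (s.choose 3 : ℝ) := by
  have h1 := Nat.choose_succ_right_eq s 2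
  have h2 := Nat.choose_succ_right_eq s 1
  rw [Nat.choose_one_right] at h2
  have h1' : ((s.choose 3 : ℕ) : ℝ) * 3 = ((s.choose 2 : ℕ) : ℝ) * ((s : ℝ) - 2) := by
    have : ((s - 2 : ℕ) : ℝ) = (s : ℝ) - 2 := by rw [Nat.cast_sub (by omega)]; norm_num
    rw [← this]; exact_mod_cast h1
  have h2' : ((s.choose 2 : ℕ) : ℝ) * 2 = (s : ℝ) * ((s : ℝ) - 1) := by
    have : ((s - 1 : ℕ) : ℝ) = (s : ℝ) - 1 := by rw [Nat.cast_sub (by omega)]; norm_num
    rw [← this]; exact_mod_cast h2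
  have h3 : ((s.choose 3 : ℕ) : ℝ) = (s : ℝ) * (s - 1) * (s - 2) / 6 := by
    have : ((s.choose 3 : ℕ) : ℝ) * 6 = (s : ℝ) * (s - 1) * (s - 2) := by
      calc ((s.choose 3 : ℕ) : ℝ) * 6 = (((s.choose 3 : ℕ) : ℝ) * 3) * 2 := by ring
        _ = (((s.choose 2 : ℕ) : ℝ) * 2) * ((s : ℝ) - 2) := by rw [h1']; ring
        _ = _ := by rw [h2']
    linarith
  have hs' : (4 : ℝ) ≤ s := by exact_mod_cast hs
  rw [h3]
  nlinarith [mul_nonneg (show (0:ℝ) ≤ s by linarith) (mul_nonneg (show (0:ℝ) ≤ s - 4 by linarith) (show (0:ℝ) ≤ 5 * s - 4 by linarith))]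

end Pool.Agent.Helper958.Kahane
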