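import Pool.Agent.Helper958.KParam

set_option autoImplicit false

namespace Pool.Agent.Helper958.Kahane

open Finset MeasureTheory AddCircle

/-- sign -/
noncomputable def sn (b : Bool) : ℝ := if b then 1 else -1

lemma wt_le (h d : ℕ) (hd : d ≤ h) (b : Bool) : wt h d b ≤ 2 * h := by
  cases b <;> simp [wt] <;> omega

lemma wt_val (h d : ℕ) (hd : d ≤ h) (h0 : 0 < h) (b : Bool) :
    1 - 2 * (wt h d b : ℝ) / ((2 * h : ℕ) : ℝ) = sn b * (d / h) := by
  have hpos : (0 : ℝ) < h := by exact_mod_cast h0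
  cases b
  · simp only [wt, sn, Bool.false_eq_true, if_false]
    push_cast
    field_simp
    ring
  · simp only [wt, sn, if_true]
    rw [Nat.cast_sub hd]
    push_cast
    field_simp
    ring

theorem block_gen (h D MPc : ℕ) (MNc : Bool → ℕ) (a δ β : ℝ) (ha : 0 < a) (hδ : 0 < δ) (hδ1 : δ ≤ 1)
    (hβ : 0 ≤ β) (hβ4 : 2048 / (2 * h : ℝ) ^ 5 ≤ β ^ 4) (h2 : 2 ≤ h) (hD : 8 * D ^ 2 ≤ h)
    (hD0 : 0 < D) (hev : Even D) (hMP0 : 0 < MPc) (hMN0 : ∀ b, 0 < MNc b)
    (hMP : 36 * ((2 * h + 1 : ℝ) * Real.log 2) ≤ δ ^ 2 * MPc)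
    (hMN : ∀ b, 36 * ((2 * h + 1 : ℝ) * Real.log 2) ≤ δ ^ 2 * MNc b)
    (hEP : ∀ b, 72 * (MPc : ℝ) ≤ δ ^ 2 * ((2 * h).choose (wt h (2 * D) b) : ℝ))
    (hEN : ∀ b, 72 * (MNc b : ℝ) ≤ δ ^ 2 * ((2 * h).choose (wt h D b) : ℝ)) (T : ℤ) :
    ∃ (N P : Bool → Finset ℤ) (f : C(UnitAddCircle, ℂ)),
      (∀ b, ∀ n ∈ N b, |n - T| < (8 * h : ℤ) ^ (2 * h)) ∧
      (∀ b, ∀ n ∈ P b, |n - T| < (8 * h : ℤ) ^ (2 * h)) ∧
      Disjoint (N true) (N false) ∧ Disjoint (P true) (P false) ∧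
      (∀ b c, Disjoint (N b) (P c)) ∧
      (∀ b, (N b).card = MNc b * 2 ^ wt h D b) ∧
      (∀ b, (P b).card = MPc * 2 ^ wt h (2 * D) b) ∧
      (∫ x, ‖f x‖ ∂haarAddCircle ≤ 3 * (a * h / D)) ∧
      (∀ n, (8 * h : ℤ) ^ (2 * h) ≤ |n - T| → fourierCoeff f n = 0) ∧
      (∀ b, ∀ n ∈ N b, fourierCoeff f n = ((sn b * a : ℝ) : ℂ)) ∧
      (∀ b, ∀ n ∈ P b, fourierCoeff f n = ((sn b * (2 * a) : ℝ) : ℂ)) ∧
      (∀ x : UnitAddCircle,
        ‖(∑ b, ((sn b / (2 * a) / ((N b).card : ℝ) : ℝ) : ℂ) * ∑ n ∈ N b, (fourier (-n) x : ℂ))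
          - ∑ b, ((sn b / (4 * a) / ((P b).card : ℝ) : ℝ) : ℂ) * ∑ n ∈ P b, (fourier (-n) x : ℂ)‖
        ≤ 3 / (2 * a) * (β + δ)) := by
  have hDh : 2 * D ≤ h := by nlinarith
  have h0 : 0 < h := by omega
  have hpos : (0 : ℝ) < h := by exact_mod_cast h0
  have hDpos : (0 : ℝ) < D := by exact_mod_cast hD0
  choose AN hANc hANw hAN using fun b => family h (wt h D b) (MNc b) δ hδ hδ1 (hMN0 b) (hMN b)
    (hEN b) (wt_le h D (by omega) b)
  choose AP hAPc hAPw hAP using fun b => family h (wt h (2 * D) b) MPc δ hδ hδ1 hMP0 hMP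
    (hEP b) (wt_le h (2 * D) hDh b)
  set L : ℕ := 4 * h with hLdef
  have hL : 2 ≤ L := by omega
  have hLc : (2 * (L : ℤ)) = 8 * h := by rw [hLdef]; push_cast; ring
  set ε : ℝ := a * h / D with hε
  have hε0 : 0 ≤ ε := by positivity
  have hs0 : 0 < 2 * h := by omega
  -- bounds for members
  have hbd : ∀ A : Finset (Finset (Fin (2 * h))), ∀ n ∈ NS T (2 * L) A, |n - T| < (8 * h : ℤ) ^ (2 * h) := by
    intro A n hn
    rw [mem_NS] at hn
    obtain ⟨S, _, l, hl, rfl⟩ := hn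
    rw [add_sub_cancel_left, hLc]
    apply freq_lt (8 * h : ℤ) (by omega)
    intro j
    have := mem_Box.1 (LS_subset_Box L hL S hl) j
    omega
  have hval : ∀ (A : Finset (Finset (Fin (2 * h)))) (w : ℕ), (∀ S ∈ A, S.card = w) →
      ∀ n ∈ NS T (2 * L) A, fourierCoeff (fF (2 * h) L ε T) n
        = ((ε * (1 - 2 * (w : ℝ) / ((2 * h : ℕ) : ℝ)) : ℝ) : ℂ) := by
    intro A w hA n hn
    rw [mem_NS] at hn
    obtain ⟨S, hS, l, hl, rfl⟩ := hn
    rw [fourierCoeff_fF_of L hL ε T l (LS_subset_Box L hL S hl), coefF_LS hs0 L hL ε S l hl, hA S hS]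
  have hdisj : ∀ (A A' : Finset (Finset (Fin (2 * h)))) (w w' : ℕ), (∀ S ∈ A, S.card = w) →
      (∀ S ∈ A', S.card = w') → w ≠ w' → Disjoint (NS T (2 * L) A) (NS T (2 * L) A') := by
    intro A A' w w' hA hA' hne
    apply NS_disjoint T L hL
    rw [Finset.disjoint_left]
    intro S hS hS'
    exact hne ((hA S hS).symm.trans (hA' S hS'))
  refine ⟨fun b => NS T (2 * L) (AN b), fun b => NS T (2 * L) (AP b), fF (2 * h) L ε T,
    fun b => hbd _, fun b => hbd _, ?_, ?_, ?_, ?_, ?_, ?_, ?_, ?_, ?_, ?_⟩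
  · apply hdisj _ _ _ _ (hANw true) (hANw false)
    simp only [wt, if_true, Bool.false_eq_true, if_false]; omega
  · apply hdisj _ _ _ _ (hAPw true) (hAPw false)
    simp only [wt, if_true, Bool.false_eq_true, if_false]; omega
  · intro b c
    apply hdisj _ _ _ _ (hANw b) (hAPw c)
    cases b <;> cases c <;> simp only [wt, if_true, Bool.false_eq_true, if_false] <;> omega
  · intro b
    simp only
    rw [card_NS T L hL (AN b) _ (hANw b), hANc]
  · intro b
    simp only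
    rw [card_NS T L hL (AP b) _ (hAPw b), hAPc]
  · refine (integral_norm_fF hs0 L hL ε hε0 T).trans ?_
    rw [mul_comm]
    apply mul_le_mul_of_nonneg_right _ hε0
    have h1 : (1 + 2 / (L : ℝ)) ^ (2 * h) ≤ Real.exp 1 := by
      have : 1 + 2 / (L : ℝ) ≤ Real.exp (2 / L) := by rw [add_comm]; exact Real.add_one_le_exp _
      calc (1 + 2 / (L : ℝ)) ^ (2 * h) ≤ (Real.exp (2 / L)) ^ (2 * h) :=
            pow_le_pow_left₀ (by positivity) this _
        _ = Real.exp 1 := by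
            rw [← Real.exp_nat_mul]
            congr 1
            rw [hLdef]; push_cast; field_simp; norm_num
    have h3 := Real.exp_one_lt_d9
    linarith
  · intro n hn
    apply fourierCoeff_fF_zero L hL
    rw [hLc]; exact hn
  · intro b n hn
    rw [hval _ _ (hANw b) n hn, wt_val h D (by omega) h0 b, hε]
    congr 1
    field_simp
  · intro b n hn
    rw [hval _ _ (hAPw b) n hn, wt_val h (2 * D) hDh h0 b, hε]
    congr 1
    push_cast
    field_simp
  · intro x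
    have hsb := sup_bound (κ := Bool × Bool) T L hL
      (fun c => if c.1 then sn c.2 / (2 * a) else - (sn c.2 / (4 * a)))
      (fun c => if c.1 then wt h D c.2 else wt h (2 * D) c.2)
      (fun c => if c.1 then AN c.2 else AP c.2)
      (by
        rintro ⟨b, c⟩ S hS
        cases b
        · exact hAPw c S hS
        · exact hANw c S hS)
      (3 / (2 * a) * (β + δ)) ?_ x
    · refine le_trans (le_of_eq ?_) hsb
      congr 1
      rw [Fintype.sum_prod_type]
      simp only [Fintype.sum_bool, if_true, Bool.false_eq_true, if_false]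
      push_cast
      ring
    · intro X
      rw [Fintype.sum_prod_type]
      simp only [Fintype.sum_bool, if_true, Bool.false_eq_true, if_false]
      rw [hANc, hANc, hAPc, hAPc]
      have c1 := cube_bound h D h2 hD hev a ha X β hβ hβ4
      have e1 := hAN true X
      have e2 := hAN false X
      have e3 := hAP true X
      have e4 := hAP false X
      simp only [wt, if_true, Bool.false_eq_true, if_false] at e1 e2 e3 e4
      simp only [sn, if_true, Bool.false_eq_true, if_false]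
      set p1 := phi (h - D) X
      set p2 := phi (h + D) X
      set p3 := phi (h - 2 * D) X
      set p4 := phi (h + 2 * D) X
      have r1 : 1 / (2 * a) / (MNc true : ℝ) * ∑ S ∈ AN true, chi S X
          = 1 / (2 * a) * ((∑ S ∈ AN true, chi S X) / (MNc true : ℝ)) := by ring
      have r2 : -1 / (2 * a) / (MNc false : ℝ) * ∑ S ∈ AN false, chi S X
          = - (1 / (2 * a) * ((∑ S ∈ AN false, chi S X) / (MNc false : ℝ))) := by ring
      have r3 : -(1 / (4 * a)) / (MPc : ℝ) * ∑ S ∈ AP true, chi S X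
          = - (1 / (4 * a) * ((∑ S ∈ AP true, chi S X) / (MPc : ℝ))) := by ring
      have r4 : -(-1 / (4 * a)) / (MPc : ℝ) * ∑ S ∈ AP false, chi S X
          = 1 / (4 * a) * ((∑ S ∈ AP false, chi S X) / (MPc : ℝ)) := by ring
      rw [r1, r2, r3, r4]
      set q1 := (∑ S ∈ AN true, chi S X) / (MNc true : ℝ)
      set q2 := (∑ S ∈ AN false, chi S X) / (MNc false : ℝ)
      set q3 := (∑ S ∈ AP true, chi S X) / (MPc : ℝ)
      set q4 := (∑ S ∈ AP false, chi S X) / (MPc : ℝ)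
      have key : 1 / (2 * a) * q1 + -(1 / (2 * a) * q2) + (-(1 / (4 * a) * q3) + 1 / (4 * a) * q4)
          = ((p1 - p2) / (2 * a) - (p3 - p4) / (4 * a))
            + (1 / (2 * a) * (q1 - p1) - 1 / (2 * a) * (q2 - p2) - 1 / (4 * a) * (q3 - p3)
              + 1 / (4 * a) * (q4 - p4)) := by ring
      rw [key]
      have i2 : 0 ≤ 1 / (2 * a) := by positivity
      have i4 : 0 ≤ 1 / (4 * a) := by positivity
      have m1 : |1 / (2 * a) * (q1 - p1)| ≤ 1 / (2 * a) * δ := by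
        rw [abs_mul, abs_of_nonneg i2]; exact mul_le_mul_of_nonneg_left e1 i2
      have m2 : |1 / (2 * a) * (q2 - p2)| ≤ 1 / (2 * a) * δ := by
        rw [abs_mul, abs_of_nonneg i2]; exact mul_le_mul_of_nonneg_left e2 i2
      have m3 : |1 / (4 * a) * (q3 - p3)| ≤ 1 / (4 * a) * δ := by
        rw [abs_mul, abs_of_nonneg i4]; exact mul_le_mul_of_nonneg_left e3 i4
      have m4 : |1 / (4 * a) * (q4 - p4)| ≤ 1 / (4 * a) * δ := by
        rw [abs_mul, abs_of_nonneg i4]; exact mul_le_mul_of_nonneg_left e4 i4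
      rw [abs_le] at c1 m1 m2 m3 m4 ⊢
      have tot : 3 / (2 * a) * (β + δ) = 3 / (2 * a) * β + (1 / (2 * a) * δ + 1 / (2 * a) * δ
          + 1 / (4 * a) * δ + 1 / (4 * a) * δ) := by
        field_simp; ring
      rw [tot]
      constructor <;> linarith [c1.1, c1.2, m1.1, m1.2, m2.1, m2.2, m3.1, m3.2, m4.1, m4.2]

end Pool.Agent.Helper958.Kahane
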