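import Pool.Agent.Helper958.KBinom

set_option autoImplicit false

namespace Pool.Agent.Helper958.Kahane

open Finset

/-- fourth power bound for the middle part -/
lemma phi_middle (h d : ℕ) (hh : 2 ≤ h) (hd : 2 * d ^ 2 ≤ h) (X : Finset (Fin (2 * h)))
    (h3 : 3 ≤ X.card) (h4 : X.card + 3 ≤ 2 * h) (β : ℝ) (hβ : 0 ≤ β)
    (hβ4 : 2048 / (2 * h : ℝ) ^ 5 ≤ β ^ 4) : |phi (h - d) X| ≤ β := by
  have hdh : d ≤ h := by nlinarith
  have h1 := phi_sq_le (h - d) (show h - d ≤ 2 * h by omega) X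
  have h2 := ratio_sq h d (by omega) hd
  have h5 := choose_three_le (2 * h) X.card h3 h4
  have h6 := choose_three_lb (2 * h) (by omega)
  have hs : (0 : ℝ) < 2 * h := by positivity
  set q : ℝ := (2 : ℝ) ^ (2 * h) / ((2 * h).choose (h - d)) with hq
  have hq0 : 0 ≤ q := by positivity
  have h7 : ((2 * h : ℝ)) ^ 3 / 16 * phi (h - d) X ^ 2 ≤ q := by
    refine le_trans ?_ h1
    apply mul_le_mul_of_nonneg_right _ (sq_nonneg _)
    calc (2 * h : ℝ) ^ 3 / 16 = ((2 * h : ℕ) : ℝ) ^ 3 / 16 := by push_cast; ring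
      _ ≤ ((2 * h).choose 3 : ℝ) := h6
      _ ≤ _ := by exact_mod_cast h5
  have h8 : (((2 * h : ℝ)) ^ 3 / 16 * phi (h - d) X ^ 2) ^ 2 ≤ 8 * (2 * h) := by
    refine le_trans (pow_le_pow_left₀ (by positivity) h7 2) h2
  have h9 : |phi (h - d) X| ^ 4 ≤ 2048 / (2 * h : ℝ) ^ 5 := by
    rw [le_div_iff₀ (by positivity)]
    have e1 : |phi (h - d) X| ^ 4 = (phi (h - d) X ^ 2) ^ 2 := by
      rw [← sq_abs (phi (h - d) X)]; ring
    have e2 : (((2 * h : ℝ)) ^ 3 / 16 * phi (h - d) X ^ 2) ^ 2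
        = (2 * h : ℝ) * ((phi (h - d) X ^ 2) ^ 2 * (2 * h : ℝ) ^ 5) / 256 := by ring
    rw [e2] at h8
    rw [e1]
    have h10 : (2 * h : ℝ) * ((phi (h - d) X ^ 2) ^ 2 * (2 * h : ℝ) ^ 5) ≤ (2 * h : ℝ) * 2048 := by
      linarith
    exact le_of_mul_le_mul_left h10 hs
  exact le_of_pow_le_pow_left₀ (n := 4) (by norm_num) hβ (h9.trans hβ4)

lemma cube_bound (h d : ℕ) (hh : 2 ≤ h) (hd : 8 * d ^ 2 ≤ h) (hev : Even d)
    (a : ℝ) (ha : 0 < a) (X : Finset (Fin (2 * h))) (β : ℝ) (hβ : 0 ≤ β)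
    (hβ4 : 2048 / (2 * h : ℝ) ^ 5 ≤ β ^ 4) :
    |(phi (h - d) X - phi (h + d) X) / (2 * a)
      - (phi (h - 2 * d) X - phi (h + 2 * d) X) / (4 * a)| ≤ 3 / (2 * a) * β := by
  have hdh : 2 * d ≤ h := by nlinarith
  have e1 : phi (h + d) X = (-1) ^ X.card * phi (h - d) X := by
    rw [← phi_sub (h - d) (by omega) X]; congr 1; omega
  have e2 : phi (h + 2 * d) X = (-1) ^ X.card * phi (h - 2 * d) X := by
    rw [← phi_sub (h - 2 * d) (by omega) X]; congr 1; omega
  rw [e1, e2]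
  have hR : 0 ≤ 3 / (2 * a) * β := by positivity
  rcases Nat.even_or_odd X.card with hev' | hodd
  · rw [hev'.neg_one_pow]; simpa using hR
  · rw [hodd.neg_one_pow]
    have hcardle : X.card ≤ 2 * h := by simpa using card_le_univ X
    have hh' : (0 : ℝ) < h := by positivity
    have cast1 : ((h - d : ℕ) : ℝ) = h - d := by rw [Nat.cast_sub (by omega)]
    have cast2 : ((h - 2 * d : ℕ) : ℝ) = h - 2 * d := by rw [Nat.cast_sub (by omega)]; push_cast; ring
    have key1 : ∀ i : Fin (2 * h), phi (h - d) ({i} : Finset (Fin (2 * h))) = d / h := by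
      intro i
      rw [phi_singleton (h - d) (by omega) i, cast1]
      push_cast; field_simp; ring
    have key2 : ∀ i : Fin (2 * h), phi (h - 2 * d) ({i} : Finset (Fin (2 * h))) = 2 * d / h := by
      intro i
      rw [phi_singleton (h - 2 * d) (by omega) i, cast2]
      push_cast; field_simp; ring
    by_cases hc1 : X.card = 1
    · obtain ⟨i, rfl⟩ := card_eq_one.1 hc1
      rw [key1, key2]
      have : ((d / h - -1 * (d / h)) / (2 * a) - (2 * d / h - -1 * (2 * d / h)) / (4 * a) : ℝ) = 0 := by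
        field_simp; ring
      rw [this]; simpa using hR
    by_cases hc2 : X.card = 2 * h - 1
    · have : Xᶜ.card = 1 := by rw [card_compl, Fintype.card_fin]; omega
      obtain ⟨i, hi⟩ := card_eq_one.1 this
      have hX : X = ({i} : Finset (Fin (2 * h)))ᶜ := by rw [← hi, compl_compl]
      rw [hX, phi_compl, phi_compl, key1, key2]
      have hpar : ((-1 : ℝ)) ^ (h - d) = (-1) ^ (h - 2 * d) := by
        obtain ⟨r, rfl⟩ := hev
        have : h - (r + r) = h - 2 * (r + r) + 2 * r := by omega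
        rw [this, pow_add, pow_mul]; simp
      rw [hpar]
      have : (((-1) ^ (h - 2 * d) * (d / h) - -1 * ((-1) ^ (h - 2 * d) * (d / h))) / (2 * a)
        - ((-1) ^ (h - 2 * d) * (2 * d / h) - -1 * ((-1) ^ (h - 2 * d) * (2 * d / h))) / (4 * a) : ℝ) = 0 := by
        field_simp; ring
      rw [this]; simpa using hR
    · have h3 : 3 ≤ X.card := by
        obtain ⟨r, hr⟩ := hodd; omega
      have h4 : X.card + 3 ≤ 2 * h := by
        obtain ⟨r, hr⟩ := hodd; omega
      have b1 := phi_middle h d hh (by nlinarith) X h3 h4 β hβ hβ4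
      have b2 := phi_middle h (2 * d) hh (by nlinarith) X h3 h4 β hβ hβ4
      have e3 : ((phi (h - d) X - -1 * phi (h - d) X) / (2 * a)
        - (phi (h - 2 * d) X - -1 * phi (h - 2 * d) X) / (4 * a))
        = phi (h - d) X / a - phi (h - 2 * d) X / (2 * a) := by
        field_simp; ring
      rw [e3]
      calc |phi (h - d) X / a - phi (h - 2 * d) X / (2 * a)|
          ≤ |phi (h - d) X / a| + |phi (h - 2 * d) X / (2 * a)| := abs_sub _ _
        _ = |phi (h - d) X| / a + |phi (h - 2 * d) X| / (2 * a) := by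
            rw [abs_div, abs_div, abs_of_pos ha, abs_of_pos (show 0 < 2 * a by positivity)]
        _ ≤ β / a + β / (2 * a) := by gcongr
        _ = _ := by field_simp; ring

end Pool.Agent.Helper958.Kahane
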