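import Pool.Agent.Helper958.KTrig

set_option autoImplicit false

namespace Pool.Agent.Helper958.Kahane

open MeasureTheory AddCircle

/-- the Banach space `L¹` of the circle -/
noncomputable abbrev L1 := Lp ℂ 1 (haarAddCircle : Measure UnitAddCircle)

lemma L1_integrable (h : L1) : Integrable (h : UnitAddCircle → ℂ) haarAddCircle :=
  L1.integrable_coeFn h

lemma L1_norm (h : L1) : ‖h‖ = ∫ x, ‖(h : UnitAddCircle → ℂ) x‖ ∂haarAddCircle :=
  L1.norm_eq_integral_norm h

/-- the functional `h ↦ ∫ g h` -/
lemma bound_functional (g : C(UnitAddCircle, ℂ)) (C : ℝ) (hg : ∀ x, ‖g x‖ ≤ C) (h : L1) :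
    ‖∫ x, g x * (h : UnitAddCircle → ℂ) x ∂haarAddCircle‖ ≤ C * ‖h‖ := by
  rw [L1_norm, ← integral_const_mul]
  apply norm_integral_le_of_norm_le
  · exact (L1_integrable h).norm.const_mul C
  · refine Filter.Eventually.of_forall fun x => ?_
    rw [norm_mul]
    exact mul_le_mul_of_nonneg_right (hg x) (norm_nonneg _)

/-- Fourier coefficient as a continuous functional -/
noncomputable def cf (n : ℤ) : L1 →L[ℂ] ℂ :=
  LinearMap.mkContinuous
    { toFun := fun h => fourierCoeff (h : UnitAddCircle → ℂ) n
      map_add' := fun h h' => by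
        rw [fourierCoeff_congr_ae (Lp.coeFn_add h h'),
          fourierCoeff.add (L1_integrable h) (L1_integrable h')]
        rfl
      map_smul' := fun c h => by
        rw [fourierCoeff_congr_ae (Lp.coeFn_smul c h)]
        have := fourierCoeff.const_smul (T := 1) (h : UnitAddCircle → ℂ) c n
        exact this } 1 (by
    intro h
    have := bound_functional (fourier (-n)) 1 (fun x => by rw [fourier_apply, Circle.norm_coe]) h
    simpa [fourierCoeff] using this)

lemma cf_apply (n : ℤ) (h : L1) : cf n h = fourierCoeff (h : UnitAddCircle → ℂ) n := rfl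

lemma cf_norm (n : ℤ) (h : L1) : ‖cf n h‖ ≤ ‖h‖ := by
  have := bound_functional (fourier (-n)) 1 (fun x => by rw [fourier_apply, Circle.norm_coe]) h
  simpa [cf_apply, fourierCoeff] using this

/-- element of `L¹` given by a continuous function -/
noncomputable def toL (g : C(UnitAddCircle, ℂ)) : L1 := ContinuousMap.toLp (E := ℂ) 1 haarAddCircle ℂ g

lemma toL_coe (g : C(UnitAddCircle, ℂ)) : (toL g : UnitAddCircle → ℂ) =ᵐ[haarAddCircle] g :=
  ContinuousMap.coeFn_toLp haarAddCircle g

lemma cf_toL (n : ℤ) (g : C(UnitAddCircle, ℂ)) : cf n (toL g) = fourierCoeff g n := by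
  rw [cf_apply, fourierCoeff_congr_ae (toL_coe g)]

lemma norm_toL (g : C(UnitAddCircle, ℂ)) : ‖toL g‖ = ∫ x, ‖g x‖ ∂haarAddCircle := by
  rw [L1_norm]
  apply integral_congr_ae
  filter_upwards [toL_coe g] with x hx
  rw [hx]

lemma cf_fourier (n m : ℤ) : cf n (toL (fourier m)) = if m = n then 1 else 0 := by
  rw [cf_toL, fourierCoeff_fourier]
  by_cases h : m = n
  · simp [h]
  · simp [h, Ne.symm h]

/-- Riemann-Lebesgue -/
lemma riemann_lebesgue (h : L1) (δ : ℝ) (hδ : 0 < δ) : ∃ R : ℤ, ∀ n, R ≤ |n| → ‖cf n h‖ < δ := by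
  have hd := span_fourierLp_closure_eq_top (T := 1) (p := 1) (by norm_num)
  have hmem : h ∈ (Submodule.span ℂ (Set.range (@fourierLp 1 _ 1 _))).topologicalClosure := by
    rw [hd]; trivial
  rw [← SetLike.mem_coe, Submodule.topologicalClosure_coe, Metric.mem_closure_iff] at hmem
  obtain ⟨p, hp, hpd⟩ := hmem δ hδ
  rw [SetLike.mem_coe, Finsupp.mem_span_range_iff_exists_finsupp] at hp
  obtain ⟨c, hc⟩ := hp
  have hz : ∀ n, n ∉ c.support → cf n p = 0 := by
    intro n hn
    rw [← hc, Finsupp.sum, map_sum]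
    apply Finset.sum_eq_zero
    intro m hm
    rw [map_smul]
    have : cf n (fourierLp 1 m) = if m = n then 1 else 0 := cf_fourier n m
    rw [this, if_neg, smul_zero]
    intro hmn; rw [hmn] at hm; exact hn hm
  obtain ⟨R, hR⟩ : ∃ R : ℤ, ∀ n ∈ c.support, |n| < R := by
    refine ⟨(∑ m ∈ c.support, |m|) + 1, fun n hn => ?_⟩
    have h5 : |n| ≤ ∑ m ∈ c.support, |m| :=
      Finset.single_le_sum (f := fun m : ℤ => |m|) (fun i _ => abs_nonneg i) hn
    omega
  refine ⟨R, fun n hn => ?_⟩
  have h1 : cf n p = 0 := hz n (fun hmem => by have := hR n hmem; omega)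
  have h2 : cf n h = cf n (h - p) := by rw [map_sub, h1, sub_zero]
  rw [h2]
  refine (cf_norm n _).trans_lt ?_
  rwa [← dist_eq_norm]

/-- convolution product -/
lemma exists_conv (f g : L1) : ∃ h : L1, ∀ n, cf n h = cf n f * cf n g := by
  have hf := L1_integrable f
  have hg := L1_integrable g
  set F : UnitAddCircle → ℂ := (f : UnitAddCircle → ℂ)
  set G : UnitAddCircle → ℂ := (g : UnitAddCircle → ℂ)
  have hconv : Integrable (convolution F G (ContinuousLinearMap.mul ℂ ℂ) haarAddCircle) haarAddCircle :=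
    hf.integrable_convolution (ContinuousLinearMap.mul ℂ ℂ) hg
  refine ⟨hconv.toL1 _, fun n => ?_⟩
  rw [cf_apply, fourierCoeff_congr_ae hconv.coeFn_toL1]
  have hf' : Integrable (fun t => (fourier (-n) t : ℂ) • F t) haarAddCircle := hf.fourier_smul (-n)
  have hg' : Integrable (fun t => (fourier (-n) t : ℂ) • G t) haarAddCircle := hg.fourier_smul (-n)
  have h1 := integral_convolution (ContinuousLinearMap.mul ℂ ℂ) hf' hg'
  have h2 : ∀ x, (fourier (-n) x : ℂ) • convolution F G (ContinuousLinearMap.mul ℂ ℂ) haarAddCircle x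
      = convolution (fun t => (fourier (-n) t : ℂ) • F t) (fun t => (fourier (-n) t : ℂ) • G t)
        (ContinuousLinearMap.mul ℂ ℂ) haarAddCircle x := by
    intro x
    unfold convolution
    rw [← integral_smul]
    congr 1
    ext t
    simp only [ContinuousLinearMap.mul_apply', smul_eq_mul]
    have : (fourier (-n) x : ℂ) = fourier (-n) t * fourier (-n) (x - t) := by
      have h3 : ((-n) • x : UnitAddCircle) = (-n) • t + (-n) • (x - t) := by
        rw [← smul_add]; congr 1; abel
      simp only [fourier_apply]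
      rw [h3, toCircle_add]
      simp
    rw [this]
    ring
  unfold fourierCoeff
  simp_rw [h2]
  rw [h1]
  rfl

section algebra

variable {ι : Type*} (u v : ι → ℤ)

/-- the algebra defined by pairing the coefficients `u i` and `v i` -/
noncomputable def Alg : Submodule ℂ L1 where
  carrier := {h | ∀ i, cf (u i) h = cf (v i) h}
  add_mem' := by
    intro a b ha hb i
    rw [map_add, map_add, ha i, hb i]
  zero_mem' := by
    intro i
    rw [map_zero, map_zero]
  smul_mem' := by
    intro c a ha i
    rw [map_smul, map_smul, ha i]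

lemma mem_Alg {h : L1} : h ∈ Alg u v ↔ ∀ i, cf (u i) h = cf (v i) h := Iff.rfl

lemma isClosed_Alg : IsClosed (Alg u v : Set L1) := by
  have : (Alg u v : Set L1) = ⋂ i, {h | cf (u i) h = cf (v i) h} := by
    ext h; simp [mem_Alg]
  rw [this]
  exact isClosed_iInter fun i => isClosed_eq (cf (u i)).continuous (cf (v i)).continuous

lemma class_le (hu : Function.Injective u) (hv : Function.Injective v) (huv : ∀ i j, u i ≠ v j)
    (n : ℤ) : {m : ℤ | ∀ f ∈ Alg u v, cf m f = cf n f}.ncard ≤ 2 := by
  classical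
  -- a set `D` of at most two elements containing `n` with indicator in the algebra
  obtain ⟨D, hD2, hnD, hD⟩ : ∃ D : Finset ℤ, D.card ≤ 2 ∧ n ∈ D ∧ ∀ i, u i ∈ D ↔ v i ∈ D := by
    by_cases h1 : ∃ i, u i = n
    · obtain ⟨i, rfl⟩ := h1
      refine ⟨{u i, v i}, Finset.card_le_two, by simp, fun j => ?_⟩
      simp only [Finset.mem_insert, Finset.mem_singleton]
      constructor
      · rintro (h | h)
        · right; rw [hu h]
        · exact absurd h (huv _ _)
      · rintro (h | h)
        · exact absurd h.symm (huv _ _)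
        · left; rw [hv h]
    · by_cases h2 : ∃ i, v i = n
      · obtain ⟨i, rfl⟩ := h2
        refine ⟨{u i, v i}, Finset.card_le_two, by simp, fun j => ?_⟩
        simp only [Finset.mem_insert, Finset.mem_singleton]
        constructor
        · rintro (h | h)
          · right; rw [hu h]
          · exact absurd h (huv _ _)
        · rintro (h | h)
          · exact absurd h.symm (huv _ _)
          · left; rw [hv h]
      · refine ⟨{n}, by simp, by simp, fun j => ?_⟩
        simp only [Finset.mem_singleton]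
        exact ⟨fun h => absurd ⟨j, h⟩ h1, fun h => absurd ⟨j, h⟩ h2⟩
  have hind : ∀ m, cf m (∑ k ∈ D, toL (fourier k)) = if m ∈ D then 1 else 0 := by
    intro m
    rw [map_sum]
    simp_rw [cf_fourier]
    rw [Finset.sum_ite_eq']
  have hmem : (∑ k ∈ D, toL (fourier k)) ∈ Alg u v := by
    intro i
    rw [hind, hind]
    simp only [hD i]
  have hsub : {m : ℤ | ∀ f ∈ Alg u v, cf m f = cf n f} ⊆ (D : Set ℤ) := by
    intro m hm
    have := hm _ hmem
    rw [hind, hind, if_pos hnD] at this
    by_contra hmD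
    rw [if_neg (fun h => hmD (Finset.mem_coe.2 h))] at this
    exact zero_ne_one this
  calc {m : ℤ | ∀ f ∈ Alg u v, cf m f = cf n f}.ncard ≤ (D : Set ℤ).ncard :=
        Set.ncard_le_ncard hsub D.finite_toSet
    _ = D.card := Set.ncard_coe_finset D
    _ ≤ 2 := hD2

end algebra

end Pool.Agent.Helper958.Kahane
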