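import Mathlib

set_option autoImplicit false

namespace Pool.Agent.Helper958.Kahane

open Finset

/-- sign of coordinate `j` for the set `X` of coordinates equal to `-1` -/
noncomputable def sg {s : ℕ} (X : Finset (Fin s)) (j : Fin s) : ℝ := if j ∈ X then -1 else 1

/-- character value `(-1)^{|S ∩ X|}` -/
noncomputable def chi {s : ℕ} (S X : Finset (Fin s)) : ℝ := ∏ j ∈ S, sg X j

lemma sg_mul_self {s : ℕ} (X : Finset (Fin s)) (j : Fin s) : sg X j * sg X j = 1 := by
  unfold sg; split_ifs <;> norm_num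

lemma abs_sg {s : ℕ} (X : Finset (Fin s)) (j : Fin s) : |sg X j| = 1 := by
  unfold sg; split_ifs <;> norm_num

lemma chi_eq {s : ℕ} (S X : Finset (Fin s)) : chi S X = (-1) ^ (S ∩ X).card := by
  unfold chi sg
  rw [Finset.prod_ite]
  simp [Finset.filter_mem_eq_inter]

lemma chi_symm {s : ℕ} (S X : Finset (Fin s)) : chi S X = chi X S := by
  rw [chi_eq, chi_eq, inter_comm]

lemma chi_mul_self {s : ℕ} (S X : Finset (Fin s)) : chi S X * chi S X = 1 := by
  unfold chi
  rw [← Finset.prod_mul_distrib]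
  exact Finset.prod_eq_one fun j _ => sg_mul_self X j

lemma abs_chi {s : ℕ} (S X : Finset (Fin s)) : |chi S X| = 1 := by
  rw [chi_eq]; simp

lemma sg_compl {s : ℕ} (X : Finset (Fin s)) (j : Fin s) : sg Xᶜ j = - sg X j := by
  unfold sg
  by_cases h : j ∈ X <;> simp [h]

lemma chi_compl_right {s : ℕ} (S X : Finset (Fin s)) : chi S Xᶜ = (-1) ^ S.card * chi S X := by
  unfold chi
  rw [← Finset.prod_const, ← Finset.prod_mul_distrib]
  exact Finset.prod_congr rfl fun j _ => by rw [sg_compl]; ring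

lemma chi_compl_left {s : ℕ} (S X : Finset (Fin s)) : chi Sᶜ X = (-1) ^ X.card * chi S X := by
  rw [chi_symm, chi_compl_right, chi_symm X S]

/-- weight class -/
def WC (s w : ℕ) : Finset (Finset (Fin s)) := powersetCard w univ

lemma mem_WC {s w : ℕ} {S : Finset (Fin s)} : S ∈ WC s w ↔ S.card = w := by
  simp [WC, mem_powersetCard]

lemma card_WC (s w : ℕ) : (WC s w).card = s.choose w := by
  simp [WC]

/-- average of the characters of weight `w` -/
noncomputable def phi {s : ℕ} (w : ℕ) (X : Finset (Fin s)) : ℝ :=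
  (∑ S ∈ WC s w, chi S X) / (s.choose w)

lemma phi_perm {s : ℕ} (w : ℕ) (X Y : Finset (Fin s)) (h : X.card = Y.card) :
    phi w X = phi w Y := by
  classical
  have e1 : {x // x ∈ X} ≃ {x // x ∈ Y} := Fintype.equivOfCardEq (by simpa using h)
  have e2 : {x // ¬ x ∈ X} ≃ {x // ¬ x ∈ Y} := by
    apply Fintype.equivOfCardEq
    rw [Fintype.card_subtype_compl, Fintype.card_subtype_compl]
    simp [h]
  set e : Equiv.Perm (Fin s) := Equiv.subtypeCongr e1 e2 with he
  have hmem : ∀ j, j ∈ X ↔ e j ∈ Y := by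
    intro j
    by_cases hj : j ∈ X
    · simp only [hj, true_iff]
      have : e j = (e1 ⟨j, hj⟩ : Fin s) := by
        simp [he, Equiv.subtypeCongr, hj]
      rw [this]; exact (e1 ⟨j, hj⟩).2
    · simp only [hj, false_iff]
      have : e j = (e2 ⟨j, hj⟩ : Fin s) := by
        simp [he, Equiv.subtypeCongr, hj]
      rw [this]; exact (e2 ⟨j, hj⟩).2
  unfold phi
  congr 1
  refine Finset.sum_nbij' (fun S => S.map e.toEmbedding) (fun S => S.map e.symm.toEmbedding) ?_ ?_ ?_ ?_ ?_
  · intro S hS; rw [mem_WC] at *; simpa using hS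
  · intro S hS; rw [mem_WC] at *; simpa using hS
  · intro S _; ext x; simp
  · intro S _; ext x; simp
  · intro S _
    unfold chi
    rw [Finset.prod_map]
    apply Finset.prod_congr rfl
    intro j _
    simp only [sg, Equiv.coe_toEmbedding]
    by_cases hj : j ∈ X
    · rw [if_pos hj, if_pos ((hmem j).1 hj)]
    · rw [if_neg hj, if_neg (fun h => hj ((hmem j).2 h))]

lemma sum_sg {s : ℕ} (S : Finset (Fin s)) : ∑ i, sg S i = (s : ℝ) - 2 * S.card := by
  have : ∀ i, sg S i = 1 - 2 * (if i ∈ S then 1 else 0) := by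
    intro i; unfold sg; split_ifs <;> norm_num
  simp_rw [this]
  rw [Finset.sum_sub_distrib, ← Finset.mul_sum]
  simp

lemma phi_singleton {s : ℕ} (w : ℕ) (hw : w ≤ s) (i : Fin s) :
    phi w ({i} : Finset (Fin s)) = 1 - 2 * w / s := by
  have hs : 0 < s := i.pos
  have hC : ((s.choose w : ℕ) : ℝ) ≠ 0 := by
    exact_mod_cast (Nat.choose_pos hw).ne'
  have h1 : ∑ j : Fin s, phi w ({j} : Finset (Fin s)) = s * phi w ({i} : Finset (Fin s)) := by
    rw [Finset.sum_congr rfl (fun j _ => phi_perm w {j} {i} (by simp))]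
    simp
  have h2 : ∑ j : Fin s, phi w ({j} : Finset (Fin s)) = s - 2 * w := by
    unfold phi
    rw [← Finset.sum_div, Finset.sum_comm]
    have : ∀ S ∈ WC s w, ∑ j : Fin s, chi S {j} = (s : ℝ) - 2 * w := by
      intro S hS
      rw [mem_WC] at hS
      have : ∀ j, chi S {j} = sg S j := by
        intro j; rw [chi_symm]; simp [chi]
      simp_rw [this]
      rw [sum_sg, hS]
    rw [Finset.sum_congr rfl this, Finset.sum_const, card_WC, nsmul_eq_mul]
    field_simp
  have hs' : (s : ℝ) ≠ 0 := by exact_mod_cast hs.ne'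
  rw [h1] at h2
  field_simp
  linarith

lemma phi_compl {s : ℕ} (w : ℕ) (X : Finset (Fin s)) : phi w Xᶜ = (-1) ^ w * phi w X := by
  unfold phi
  rw [← mul_div_assoc, Finset.mul_sum]
  congr 1
  apply Finset.sum_congr rfl
  intro S hS
  rw [mem_WC] at hS
  rw [chi_compl_right, hS]

lemma phi_sub {s : ℕ} (w : ℕ) (hw : w ≤ s) (X : Finset (Fin s)) :
    phi (s - w) X = (-1) ^ X.card * phi w X := by
  unfold phi
  rw [← mul_div_assoc, Finset.mul_sum, Nat.choose_symm hw]
  congr 1
  refine Finset.sum_nbij' (fun S => Sᶜ) (fun S => Sᶜ) ?_ ?_ ?_ ?_ ?_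
  · intro S hS; rw [mem_WC] at *; rw [card_compl, Fintype.card_fin]; omega
  · intro S hS; rw [mem_WC] at *; rw [card_compl, Fintype.card_fin]; omega
  · intro S _; simp
  · intro S _; simp
  · intro S _
    rw [chi_compl_left, ← mul_assoc, ← pow_add]
    simp

lemma sum_chi_mul {s : ℕ} (S T : Finset (Fin s)) :
    ∑ X : Finset (Fin s), chi S X * chi T X = if S = T then (2 : ℝ) ^ s else 0 := by
  have h : ∀ X : Finset (Fin s), chi S X * chi T X = ∏ j ∈ X, (sg S j * sg T j) := by
    intro X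
    rw [chi_symm S, chi_symm T]
    unfold chi
    rw [Finset.prod_mul_distrib]
  simp_rw [h]
  have h2 := Finset.prod_one_add (s := (univ : Finset (Fin s))) (f := fun j => sg S j * sg T j)
  rw [Finset.powerset_univ] at h2
  rw [← h2]
  split_ifs with hST
  · subst hST
    rw [Finset.prod_congr rfl (fun j _ => by rw [sg_mul_self])]
    norm_num
  · have : ∃ j, sg S j * sg T j = -1 := by
      by_contra hcon
      push Not at hcon
      apply hST
      ext j
      have := hcon j
      unfold sg at this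
      by_cases h1 : j ∈ S <;> by_cases h2 : j ∈ T <;> simp_all
    obtain ⟨j, hj⟩ := this
    exact Finset.prod_eq_zero (mem_univ j) (by rw [hj]; norm_num)

lemma parseval {s : ℕ} (w : ℕ) (hw : w ≤ s) :
    ∑ X : Finset (Fin s), phi w X ^ 2 = 2 ^ s / (s.choose w) := by
  have hC : ((s.choose w : ℕ) : ℝ) ≠ 0 := by
    exact_mod_cast (Nat.choose_pos hw).ne'
  have h : ∀ X : Finset (Fin s), phi w X ^ 2
      = (∑ S ∈ WC s w, ∑ T ∈ WC s w, chi S X * chi T X) / (s.choose w) ^ 2 := by
    intro X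
    unfold phi
    rw [div_pow, sq (∑ S ∈ WC s w, chi S X), Finset.sum_mul_sum]
  simp_rw [h]
  rw [← Finset.sum_div, Finset.sum_comm]
  have h2 : ∀ S ∈ WC s w, ∑ X : Finset (Fin s), ∑ T ∈ WC s w, chi S X * chi T X = 2 ^ s := by
    intro S hS
    rw [Finset.sum_comm]
    simp_rw [sum_chi_mul]
    rw [Finset.sum_ite_eq]
    simp [hS]
  rw [Finset.sum_congr rfl h2, Finset.sum_const, card_WC, nsmul_eq_mul]
  field_simp

lemma phi_sq_le {s : ℕ} (w : ℕ) (hw : w ≤ s) (X : Finset (Fin s)) :
    (s.choose X.card) * phi w X ^ 2 ≤ 2 ^ s / (s.choose w) := by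
  rw [← parseval w hw, ← card_WC, ← nsmul_eq_mul, ← Finset.sum_const]
  calc ∑ _Y ∈ WC s X.card, phi w X ^ 2 = ∑ Y ∈ WC s X.card, phi w Y ^ 2 := by
        apply Finset.sum_congr rfl
        intro Y hY
        rw [mem_WC] at hY
        rw [phi_perm w X Y hY.symm]
    _ ≤ _ := Finset.sum_le_univ_sum_of_nonneg (fun Y => sq_nonneg _)

end Pool.Agent.Helper958.Kahane
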