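import Pool.Agent.Helper958.KTrig

set_option autoImplicit false

namespace Pool.Agent.Helper958.Kahane

open Finset MeasureTheory AddCircle

/-- number of pairs `(a,b)` in `[0,L)²` with `a - b = l` -/
def cnt (L : ℕ) (l : ℤ) : ℕ :=
  ((range L ×ˢ range L).filter (fun p : ℕ × ℕ => (p.1 : ℤ) - p.2 = l)).card

lemma cnt_zero (L : ℕ) : cnt L 0 = L := by
  unfold cnt
  conv_rhs => rw [← card_range L]
  symm
  refine Finset.card_nbij' (fun a => (a, a)) (fun p => p.1) ?_ ?_ ?_ ?_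
  · intro a ha; simp at *; exact ha
  · intro p hp; simp at *; exact hp.1.1
  · intro a _; rfl
  · intro p hp
    simp at hp
    have : p.1 = p.2 := by omega
    ext <;> simp [this]

lemma cnt_one (L : ℕ) : cnt L 1 = L - 1 := by
  unfold cnt
  conv_rhs => rw [← card_range (L - 1)]
  symm
  refine Finset.card_nbij' (fun a => (a + 1, a)) (fun p => p.2) ?_ ?_ ?_ ?_
  · intro a ha
    simp only [coe_range, Set.mem_Iio] at ha
    simp only [coe_filter, mem_product, mem_range, Set.mem_ofPred_eq]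
    refine ⟨⟨by omega, by omega⟩, by push_cast; ring⟩
  · intro p hp
    simp only [coe_filter, mem_product, mem_range, Set.mem_ofPred_eq] at hp
    simp only [coe_range, Set.mem_Iio]
    omega
  · intro a _; rfl
  · intro p hp
    simp only [coe_filter, mem_product, mem_range, Set.mem_ofPred_eq] at hp
    have : p.1 = p.2 + 1 := by omega
    ext <;> simp [this]

lemma cnt_neg (L : ℕ) (l : ℤ) : cnt L (-l) = cnt L l := by
  unfold cnt
  refine Finset.card_nbij' (fun p => (p.2, p.1)) (fun p => (p.2, p.1)) ?_ ?_ ?_ ?_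
  · intro p hp
    simp only [coe_filter, mem_product, mem_range, Set.mem_ofPred_eq] at hp ⊢
    exact ⟨⟨hp.1.2, hp.1.1⟩, by omega⟩
  · intro p hp
    simp only [coe_filter, mem_product, mem_range, Set.mem_ofPred_eq] at hp ⊢
    exact ⟨⟨hp.1.2, hp.1.1⟩, by omega⟩
  · intro p _; rfl
  · intro p _; rfl

lemma fejer (L : ℕ) (w : ℂ) (hw : ‖w‖ = 1) :
    (((‖∑ a ∈ range L, w ^ a‖ : ℝ) : ℂ)) ^ 2 = ∑ l ∈ Ioo (-(L : ℤ)) L, (cnt L l : ℂ) * w ^ l := by
  have hw0 : w ≠ 0 := by
    intro h; rw [h] at hw; simp at hw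
  have hinv : (starRingEnd ℂ) w = w⁻¹ := by
    rw [Complex.inv_def, Complex.normSq_eq_norm_sq, hw]; simp
  have h1 : (((‖∑ a ∈ range L, w ^ a‖ : ℝ) : ℂ)) ^ 2
      = (∑ a ∈ range L, w ^ a) * (starRingEnd ℂ) (∑ a ∈ range L, w ^ a) := by
    rw [Complex.mul_conj, Complex.normSq_eq_norm_sq]; push_cast; rfl
  rw [h1, map_sum, Finset.sum_mul_sum, ← Finset.sum_product']
  have h2 : ∀ p ∈ range L ×ˢ range L, w ^ p.1 * (starRingEnd ℂ) (w ^ p.2)
      = w ^ ((p.1 : ℤ) - p.2) := by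
    intro p _
    rw [map_pow, hinv, zpow_sub₀ hw0, zpow_natCast, zpow_natCast, inv_pow]; rfl
  rw [Finset.sum_congr rfl h2]
  rw [← Finset.sum_fiberwise_of_maps_to (t := Ioo (-(L : ℤ)) L)
    (g := fun p : ℕ × ℕ => (p.1 : ℤ) - p.2)]
  · apply Finset.sum_congr rfl
    intro l _
    rw [Finset.sum_congr rfl (g := fun _ => w ^ l)]
    · rw [Finset.sum_const, nsmul_eq_mul]; rfl
    · intro p hp
      rw [mem_filter] at hp
      rw [hp.2]
  · intro p hp
    rw [mem_product, mem_range, mem_range] at hp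
    rw [mem_Ioo]
    omega

lemma fourier_mul_zpow (m l : ℤ) (x : UnitAddCircle) :
    (fourier (l * m) x : ℂ) = (fourier m x : ℂ) ^ l := by
  simp only [fourier_apply]
  rw [mul_smul, toCircle_zsmul]
  simp

/-- sign as a complex number -/
noncomputable def cs (b : Bool) : ℂ := if b then -1 else 1

lemma norm_cs (b : Bool) : ‖cs b‖ = 1 := by cases b <;> simp [cs]

lemma cs_ne_zero (b : Bool) : cs b ≠ 0 := by cases b <;> simp [cs]

/-- Fourier coefficients of the corrected Fejer kernel -/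
noncomputable def kV (L : ℕ) (b : Bool) (l : ℤ) : ℂ :=
  ((cnt L l : ℂ) / L + (if l = 1 ∨ l = -1 then (1 : ℂ) / L else 0)) * cs b ^ l

/-- Fourier coefficients of its majorant -/
noncomputable def kW (L : ℕ) (b : Bool) (l : ℤ) : ℂ :=
  ((cnt L l : ℂ) / L) * cs b ^ l + (if l = 0 then (2 : ℂ) / L else 0)

lemma kV_zero (L : ℕ) (hL : 2 ≤ L) (b : Bool) : kV L b 0 = 1 := by
  have hL0 : (L : ℂ) ≠ 0 := by
    have : L ≠ 0 := by omega
    exact_mod_cast this
  simp [kV, cnt_zero, hL0]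

lemma kV_one (L : ℕ) (hL : 2 ≤ L) (b : Bool) : kV L b 1 = cs b := by
  have hL0 : (L : ℂ) ≠ 0 := by
    have : L ≠ 0 := by omega
    exact_mod_cast this
  have : ((L - 1 : ℕ) : ℂ) = L - 1 := by
    rw [Nat.cast_sub (by omega)]; simp
  unfold kV
  rw [cnt_one, this, if_pos (Or.inl rfl), zpow_one]
  field_simp
  ring

lemma kV_neg_one (L : ℕ) (hL : 2 ≤ L) (b : Bool) : kV L b (-1) = cs b := by
  have hL0 : (L : ℂ) ≠ 0 := by
    have : L ≠ 0 := by omega
    exact_mod_cast this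
  have : ((L - 1 : ℕ) : ℂ) = L - 1 := by
    rw [Nat.cast_sub (by omega)]; simp
  unfold kV
  rw [cnt_neg, cnt_one, this, if_pos (Or.inr rfl)]
  have h2 : cs b ^ (-1 : ℤ) = cs b := by
    cases b <;> simp [cs]
  rw [h2]
  field_simp
  ring

lemma kW_zero (L : ℕ) (hL : 2 ≤ L) (b : Bool) : kW L b 0 = 1 + 2 / L := by
  have hL0 : (L : ℂ) ≠ 0 := by
    have : L ≠ 0 := by omega
    exact_mod_cast this
  simp [kW, cnt_zero, hL0]

/-- real majorant -/
noncomputable def rW (L : ℕ) (b : Bool) (m : ℤ) (x : UnitAddCircle) : ℝ :=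
  ‖∑ a ∈ range L, (cs b * (fourier m x : ℂ)) ^ a‖ ^ 2 / L + 2 / L

lemma norm_fourier_apply (m : ℤ) (x : UnitAddCircle) : ‖(fourier m x : ℂ)‖ = 1 := by
  rw [fourier_apply, Circle.norm_coe]

lemma rW_eq (L : ℕ) (hL : 2 ≤ L) (b : Bool) (m : ℤ) (x : UnitAddCircle) :
    ((rW L b m x : ℝ) : ℂ) = ∑ l ∈ Ioo (-(L : ℤ)) L, kW L b l * (fourier (l * m) x : ℂ) := by
  unfold rW kW
  push_cast
  rw [fejer L (cs b * (fourier m x : ℂ)) (by rw [norm_mul, norm_cs, norm_fourier_apply, one_mul])]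
  simp_rw [add_mul]
  rw [Finset.sum_add_distrib, Finset.sum_div]
  congr 1
  · apply Finset.sum_congr rfl
    intro l _
    rw [fourier_mul_zpow, mul_zpow]
    ring
  · simp_rw [ite_mul, zero_mul]
    rw [Finset.sum_ite_eq', if_pos (by rw [mem_Ioo]; omega)]
    simp

lemma rW_nonneg (L : ℕ) (b : Bool) (m : ℤ) (x : UnitAddCircle) : 0 ≤ rW L b m x := by
  unfold rW; positivity

lemma norm_kV_le (L : ℕ) (hL : 2 ≤ L) (b : Bool) (m : ℤ) (x : UnitAddCircle) :
    ‖∑ l ∈ Ioo (-(L : ℤ)) L, kV L b l * (fourier (l * m) x : ℂ)‖ ≤ rW L b m x := by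
  have h : ∑ l ∈ Ioo (-(L : ℤ)) L, kV L b l * (fourier (l * m) x : ℂ)
      = ((‖∑ a ∈ range L, (cs b * (fourier m x : ℂ)) ^ a‖ ^ 2 / L : ℝ) : ℂ)
        + (1 / L * cs b * (fourier (1 * m) x : ℂ) + 1 / L * cs b ^ (-1 : ℤ) * (fourier ((-1) * m) x : ℂ)) := by
    unfold kV
    push_cast
    rw [fejer L (cs b * (fourier m x : ℂ)) (by rw [norm_mul, norm_cs, norm_fourier_apply, one_mul])]
    simp_rw [add_mul]
    rw [Finset.sum_add_distrib, Finset.sum_div]
    congr 1
    · apply Finset.sum_congr rfl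
      intro l _
      rw [fourier_mul_zpow, mul_zpow]
      ring
    · have : ∀ l : ℤ, (if l = 1 ∨ l = -1 then (1 : ℂ) / L else 0) * cs b ^ l * (fourier (l * m) x : ℂ)
          = (if l = 1 then 1 / L * cs b ^ l * (fourier (l * m) x : ℂ) else 0)
          + (if l = -1 then 1 / L * cs b ^ l * (fourier (l * m) x : ℂ) else 0) := by
        intro l
        by_cases h1 : l = 1
        · subst h1; simp
        · by_cases h2 : l = -1
          · subst h2; simp
          · simp [h1, h2]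
      simp_rw [this]
      rw [Finset.sum_add_distrib, Finset.sum_ite_eq', Finset.sum_ite_eq', if_pos, if_pos, zpow_one]
      · rw [mem_Ioo]; omega
      · rw [mem_Ioo]; omega
  rw [h]
  refine (norm_add_le _ _).trans ?_
  unfold rW
  have hL1 : (0 : ℝ) < L := by positivity
  apply add_le_add
  · rw [Complex.norm_real, Real.norm_of_nonneg (by positivity)]
  · refine (norm_add_le _ _).trans ?_
    rw [norm_mul, norm_mul, norm_mul, norm_mul, norm_zpow, norm_cs, norm_fourier_apply,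
      norm_fourier_apply]
    simp
    ring_nf
    exact le_rfl

end Pool.Agent.Helper958.Kahane
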