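import Pool.Agent.Helper958.KBlock
import Pool.Agent.Helper958.KCircle

set_option autoImplicit false

namespace Pool.Agent.Helper958.Kahane

open MeasureTheory AddCircle Filter Topology

/-- radius of the block `k` -/
noncomputable def RR (k : ℕ) : ℤ := (8 * hh k : ℤ) ^ (2 * hh k)

lemma RR_pos (k : ℕ) : 0 < RR k := by
  unfold RR
  have := hh_pos k
  positivity

/-- offset of the block `k` -/
noncomputable def Off (k : ℕ) : ℤ := ∑ i ∈ Finset.range k, 2 * RR i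

/-- centre of the block `k` -/
noncomputable def TT (k : ℕ) : ℤ := Off k + RR k

lemma Off_succ (k : ℕ) : Off (k + 1) = Off k + 2 * RR k := by
  unfold Off; rw [Finset.sum_range_succ]

lemma Off_mono : Monotone Off := by
  apply monotone_nat_of_le_succ
  intro k
  rw [Off_succ]
  have := RR_pos k
  omega

lemma Off_ge (k : ℕ) : (k : ℤ) ≤ Off k := by
  induction k with
  | zero => simp [Off]
  | succ k ih =>
    rw [Off_succ]
    have := RR_pos k
    push_cast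
    omega

lemma blk_unique {n : ℤ} {j k : ℕ} (hj : |n - TT j| < RR j) (hk : |n - TT k| < RR k) : j = k := by
  have aux : ∀ {n : ℤ} {j k : ℕ}, |n - TT j| < RR j → |n - TT k| < RR k → ¬ j < k := by
    intro n j k hj hk hlt
    have h1 := Off_mono (show j + 1 ≤ k from hlt)
    rw [Off_succ] at h1
    unfold TT at hj hk
    rw [abs_lt] at hj hk
    omega
  have h1 := aux hj hk
  have h2 := aux hk hj
  omega

lemma RR_eq (k : ℕ) : (8 * hh k : ℤ) ^ (2 * hh k) = RR k := rfl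

lemma half_hh (k : ℕ) : ((1 / 2 : ℝ) ^ k) * (hh k : ℝ) = 2048 := by
  unfold hh
  push_cast
  rw [pow_add, ← mul_assoc, ← mul_pow]
  norm_num

lemma norm_est (k : ℕ) (x H D : ℝ) (hx : x * H = 2048) (hD : ((k : ℝ) + 1) ^ 2 ≤ D) :
    3 * (x * H / D) ≤ 6144 / ((k : ℝ) + 1) ^ 2 := by
  rw [hx]
  have e3 : (0 : ℝ) < ((k : ℝ) + 1) ^ 2 := by positivity
  calc 3 * (2048 / D) = 6144 / D := by ring
    _ ≤ 6144 / ((k : ℝ) + 1) ^ 2 := div_le_div_of_nonneg_left (by norm_num) e3 hD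

lemma DD_ge (k : ℕ) : ((k : ℝ) + 1) ^ 2 ≤ (DD k : ℝ) := by
  unfold DD; push_cast; nlinarith [(Nat.cast_nonneg k : (0 : ℝ) ≤ k)]

lemma sup_est (k : ℕ) : 3 / (2 * (1 / 2 : ℝ) ^ k) * ((9 / 20) ^ k + (1 / 4) ^ k)
    = 3 / 2 * ((9 / 10) ^ k + (1 / 2) ^ k) := by
  have e1 : ((9 / 10 : ℝ)) ^ k = (9 / 20) ^ k * 2 ^ k := by rw [← mul_pow]; norm_num
  have e2 : ((1 / 2 : ℝ)) ^ k = (1 / 4) ^ k * 2 ^ k := by rw [← mul_pow]; norm_num
  have e3 : (1 : ℝ) / (1 / 2) ^ k = 2 ^ k := by rw [one_div_pow, one_div_one_div]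
  calc 3 / (2 * (1 / 2 : ℝ) ^ k) * ((9 / 20) ^ k + (1 / 4) ^ k)
      = 3 / 2 * (1 / (1 / 2 : ℝ) ^ k) * ((9 / 20) ^ k + (1 / 4) ^ k) := by
        rw [← div_div]; ring
    _ = 3 / 2 * ((9 / 20) ^ k * 2 ^ k + (1 / 4) ^ k * 2 ^ k) := by rw [e3]; ring
    _ = _ := by rw [← e1, ← e2]

theorem block (k : ℕ) (T : ℤ) :
    ∃ (N P : Bool → Finset ℤ) (f : C(UnitAddCircle, ℂ)),
      (∀ b, ∀ n ∈ N b, |n - T| < RR k) ∧
      (∀ b, ∀ n ∈ P b, |n - T| < RR k) ∧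
      Disjoint (N true) (N false) ∧ Disjoint (P true) (P false) ∧
      (∀ b c, Disjoint (N b) (P c)) ∧
      (∀ b, (N b).card = MN k b * 2 ^ wt (hh k) (DD k) b) ∧
      (∀ b, (P b).card = MP k * 2 ^ wt (hh k) (2 * DD k) b) ∧
      (∫ x, ‖f x‖ ∂haarAddCircle ≤ 6144 / (k + 1) ^ 2) ∧
      (∀ n, RR k ≤ |n - T| → fourierCoeff f n = 0) ∧
      (∀ b, ∀ n ∈ N b, fourierCoeff f n = ((sn b * (1 / 2) ^ k : ℝ) : ℂ)) ∧
      (∀ b, ∀ n ∈ P b, fourierCoeff f n = ((sn b * (2 * (1 / 2) ^ k) : ℝ) : ℂ)) ∧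
      (∀ x : UnitAddCircle,
        ‖(∑ b, ((sn b / (2 * (1 / 2) ^ k) / ((N b).card : ℝ) : ℝ) : ℂ) *
            ∑ n ∈ N b, (fourier (-n) x : ℂ))
          - ∑ b, ((sn b / (4 * (1 / 2) ^ k) / ((P b).card : ℝ) : ℝ) : ℂ) *
            ∑ n ∈ P b, (fourier (-n) x : ℂ)‖
        ≤ 3 / 2 * ((9 / 10) ^ k + (1 / 2) ^ k)) := by
  have hgpk := gp_le k
  have hD0 : 0 < DD k := by unfold DD; positivity
  have hI1 := I1 k
  have hMN : ∀ b, MN k b ≤ 2 ^ (5 * (k + 1) + 17 + (hh k + gp k)) := by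
    intro b
    unfold MN
    apply Nat.pow_le_pow_right (by norm_num)
    cases b <;> simp only [wt, if_true, Bool.false_eq_true, if_false] <;> omega
  have hMP : MP k ≤ 2 ^ (5 * (k + 1) + 17 + (hh k + gp k)) := by
    unfold MP
    apply Nat.pow_le_pow_right (by norm_num)
    omega
  have hMPN : ∀ b, MP k ≤ MN k b := by
    intro b
    unfold MP MN
    apply Nat.pow_le_pow_right (by norm_num)
    omega
  obtain ⟨N, P, f, h1, h2, h3, h4, h5, h6, h7, h8, h9, h10, h11, h12⟩ := block_gen (hh k) (DD k) (MP k) (MN k) ((1 / 2) ^ k) ((1 / 4) ^ k)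
    ((9 / 20) ^ k) (by positivity) (by positivity) (pow_le_one₀ (by norm_num) (by norm_num))
    (by positivity) (I5 k) (by have := hh_ge k; omega) hI1 hD0 (DD_even k)
    (by unfold MP; positivity) (fun b => by unfold MN; positivity)
    (I2 k (MP k) le_rfl) (fun b => I2 k (MN k b) (hMPN b))
    (fun b => I4 k (2 * DD k) (MP k) (by nlinarith) b hMP)
    (fun b => I4 k (DD k) (MN k b) (by nlinarith) b (hMN b)) T
  exact ⟨N, P, f, h1, h2, h3, h4, h5, h6, h7, h8.trans (norm_est k _ _ _ (half_hh k) (DD_ge k)),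
    h9, h10, h11, fun x => (h12 x).trans (le_of_eq (sup_est k))⟩

end Pool.Agent.Helper958.Kahane
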