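import Pool.Agent.Helper958.KFejer
import Pool.Agent.Helper958.KCube

set_option autoImplicit false

namespace Pool.Agent.Helper958.Kahane

open Finset MeasureTheory AddCircle

variable {s : ℕ}

/-- digit box -/
noncomputable def Box (s L : ℕ) : Finset (Fin s → ℤ) := Fintype.piFinset fun _ => Ioo (-(L : ℤ)) L

lemma mem_Box {L : ℕ} {l : Fin s → ℤ} : l ∈ Box s L ↔ ∀ j, |l j| < L := by
  unfold Box
  rw [Fintype.mem_piFinset]
  simp only [mem_Ioo, abs_lt]

/-- coefficients of the block function -/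
noncomputable def coefF (L : ℕ) (ε : ℝ) (l : Fin s → ℤ) : ℂ :=
  (ε / s : ℝ) * ∑ i : Fin s, ∏ j : Fin s, kV L (decide (i = j)) (l j)

/-- the block function -/
noncomputable def fF (s L : ℕ) (ε : ℝ) (T : ℤ) : C(UnitAddCircle, ℂ) :=
  ∑ l ∈ Box s L, coefF L ε l • fourier (T + freq (2 * L) l)

lemma fF_apply (L : ℕ) (ε : ℝ) (T : ℤ) (x : UnitAddCircle) :
    fF s L ε T x = (fourier T x : ℂ) * ((ε / s : ℝ) * ∑ i : Fin s, ∏ j : Fin s,
      ∑ l ∈ Ioo (-(L : ℤ)) L, kV L (decide (i = j)) l * (fourier (l * (2 * L) ^ (j : ℕ)) x : ℂ)) := by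
  have h : ∀ i : Fin s, ∏ j : Fin s,
      ∑ l ∈ Ioo (-(L : ℤ)) L, kV L (decide (i = j)) l * (fourier (l * (2 * L) ^ (j : ℕ)) x : ℂ)
      = ∑ l ∈ Box s L, (∏ j, kV L (decide (i = j)) (l j)) * (fourier (freq (2 * L) l) x : ℂ) :=
    fun i => prod_expand (2 * L) (fun _ => Ioo (-(L : ℤ)) L) (fun j l => kV L (decide (i = j)) l) x
  simp_rw [h]
  unfold fF coefF
  rw [ContinuousMap.coe_sum, Finset.sum_apply, Finset.sum_comm, Finset.mul_sum, Finset.mul_sum]
  apply Finset.sum_congr rfl
  intro l _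
  rw [ContinuousMap.coe_smul, Pi.smul_apply, fourier_add, smul_eq_mul, ← Finset.sum_mul]
  ring

/-- product of the majorants -/
noncomputable def PW (L : ℕ) (i : Fin s) (x : UnitAddCircle) : ℝ :=
  ∏ j : Fin s, rW L (decide (i = j)) ((2 * L) ^ (j : ℕ)) x

lemma PW_eq (L : ℕ) (hL : 2 ≤ L) (i : Fin s) (x : UnitAddCircle) :
    ((PW L i x : ℝ) : ℂ) = (∑ l ∈ Box s L, (∏ j, kW L (decide (i = j)) (l j)) •
      fourier (freq (2 * L) l) : C(UnitAddCircle, ℂ)) x := by
  unfold PW
  rw [Complex.ofReal_prod]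
  have h : ∀ j : Fin s, ((rW L (decide (i = j)) ((2 * L) ^ (j : ℕ)) x : ℝ) : ℂ)
      = ∑ l ∈ Ioo (-(L : ℤ)) L, kW L (decide (i = j)) l * (fourier (l * (2 * L) ^ (j : ℕ)) x : ℂ) :=
    fun j => rW_eq L hL _ _ x
  rw [Finset.prod_congr rfl (fun j _ => h j)]
  rw [prod_expand (2 * L) (fun _ => Ioo (-(L : ℤ)) L) (fun j l => kW L (decide (i = j)) l) x]
  rw [ContinuousMap.coe_sum, Finset.sum_apply]
  rfl

lemma PW_nonneg (L : ℕ) (i : Fin s) (x : UnitAddCircle) : 0 ≤ PW L i x :=
  Finset.prod_nonneg fun _ _ => rW_nonneg _ _ _ _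

lemma PW_integrable (L : ℕ) (hL : 2 ≤ L) (i : Fin s) :
    Integrable (fun x => PW L i x) haarAddCircle := by
  have h := (integrable_cont (∑ l ∈ Box s L, (∏ j, kW L (decide (i = j)) (l j)) •
      fourier (freq (2 * L) l))).re
  refine h.congr (Filter.Eventually.of_forall fun x => ?_)
  simp only
  rw [← PW_eq L hL i x]
  simp

lemma integral_PW (L : ℕ) (hL : 2 ≤ L) (i : Fin s) :
    ∫ x, PW L i x ∂haarAddCircle = (1 + 2 / L) ^ s := by
  have h : ((∫ x, PW L i x ∂haarAddCircle : ℝ) : ℂ) = (1 + 2 / L) ^ s := by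
    rw [← integral_complex_ofReal]
    simp_rw [PW_eq L hL i]
    have h2 : ∀ x : UnitAddCircle, (∑ l ∈ Box s L, (∏ j, kW L (decide (i = j)) (l j)) •
      fourier (freq (2 * L) l) : C(UnitAddCircle, ℂ)) x
      = ∑ l ∈ Box s L, (∏ j, kW L (decide (i = j)) (l j)) * (fourier (freq (2 * L) l) x : ℂ) := by
      intro x
      rw [ContinuousMap.coe_sum, Finset.sum_apply]
      rfl
    simp_rw [h2]
    rw [integral_finsetSum]
    · simp_rw [integral_const_mul, integral_fourier]
      rw [Finset.sum_eq_single (0 : Fin s → ℤ)]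
      · rw [if_pos (by simp [freq]), mul_one]
        simp_rw [Pi.zero_apply, kW_zero L hL]
        simp
      · intro l hl hl0
        rw [if_neg, mul_zero]
        intro hfr
        apply hl0
        rw [mem_Box] at hl
        refine freq_eq_zero (2 * L) (by omega) l (fun j => ?_) hfr
        have := hl j
        omega
      · intro h0
        exfalso
        apply h0
        rw [mem_Box]
        intro j
        simp
        omega
    · intro l _
      exact (integrable_cont (fourier (freq (2 * L) l))).const_mul _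
  have h3 : ((1 + 2 / (L : ℂ)) ^ s) = (((1 + 2 / (L : ℝ)) ^ s : ℝ) : ℂ) := by push_cast; rfl
  rw [h3] at h
  exact_mod_cast h

lemma norm_fF_le (L : ℕ) (hL : 2 ≤ L) (ε : ℝ) (hε : 0 ≤ ε) (T : ℤ) (x : UnitAddCircle) :
    ‖fF s L ε T x‖ ≤ ε / s * ∑ i : Fin s, PW L i x := by
  rw [fF_apply, norm_mul, norm_fourier_apply, one_mul, norm_mul, Complex.norm_real,
    Real.norm_of_nonneg (by positivity)]
  apply mul_le_mul_of_nonneg_left _ (by positivity)
  refine (norm_sum_le _ _).trans ?_
  apply Finset.sum_le_sum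
  intro i _
  rw [norm_prod]
  unfold PW
  apply Finset.prod_le_prod
  · intro j _; exact norm_nonneg _
  · intro j _
    exact norm_kV_le L hL _ _ x

lemma integral_norm_fF (hs : 0 < s) (L : ℕ) (hL : 2 ≤ L) (ε : ℝ) (hε : 0 ≤ ε) (T : ℤ) :
    ∫ x, ‖fF s L ε T x‖ ∂haarAddCircle ≤ ε * (1 + 2 / L) ^ s := by
  have hint : Integrable (fun x => ε / s * ∑ i : Fin s, PW L i x) haarAddCircle := by
    apply Integrable.const_mul
    exact integrable_finsetSum _ fun i _ => PW_integrable L hL i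
  calc ∫ x, ‖fF s L ε T x‖ ∂haarAddCircle ≤ ∫ x, ε / s * ∑ i : Fin s, PW L i x ∂haarAddCircle :=
        integral_mono (integrable_cont _).norm hint (fun x => norm_fF_le L hL ε hε T x)
    _ = ε * (1 + 2 / L) ^ s := by
        rw [integral_const_mul, integral_finsetSum _ fun i _ => PW_integrable L hL i]
        simp_rw [integral_PW L hL]
        have : (s : ℝ) ≠ 0 := by exact_mod_cast hs.ne'
        simp
        field_simp

lemma fourierCoeff_fF (L : ℕ) (ε : ℝ) (T : ℤ) (n : ℤ) :
    fourierCoeff (fF s L ε T) n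
      = ∑ l ∈ Box s L, coefF L ε l * (if T + freq (2 * L) l = n then 1 else 0) := by
  unfold fF
  have : ((∑ l ∈ Box s L, coefF L ε l • fourier (T + freq (2 * L) l) : C(UnitAddCircle, ℂ)) :
      UnitAddCircle → ℂ) = ∑ l ∈ Box s L, coefF L ε l • (fourier (T + freq (2 * L) l) :
      UnitAddCircle → ℂ) := by
    rw [ContinuousMap.coe_sum]; rfl
  rw [this, fourierCoeff.sum]
  · rw [Finset.sum_apply]
    apply Finset.sum_congr rfl
    intro l _
    have h1 := fourierCoeff.const_smul (T := 1) (fourier (T + freq (2 * L) l) : UnitAddCircle → ℂ)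
      (coefF L ε l) n
    rw [h1, fourierCoeff_fourier, smul_eq_mul]
    congr 1
    by_cases h : T + freq (2 * L) l = n
    · simp [h]
    · simp [h, Ne.symm h]
  · intro l _
    exact (integrable_cont _).smul _

lemma fourierCoeff_fF_of (L : ℕ) (hL : 2 ≤ L) (ε : ℝ) (T : ℤ) (l : Fin s → ℤ) (hl : l ∈ Box s L) :
    fourierCoeff (fF s L ε T) (T + freq (2 * L) l) = coefF L ε l := by
  rw [fourierCoeff_fF, Finset.sum_eq_single l]
  · simp
  · intro l' hl' hne
    rw [if_neg, mul_zero]
    intro h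
    apply hne
    rw [mem_Box] at hl hl'
    exact freq_inj L (by omega) l' l hl' hl (by linarith)
  · intro h; exact absurd hl h

lemma fourierCoeff_fF_zero (L : ℕ) (hL : 2 ≤ L) (ε : ℝ) (T : ℤ) (n : ℤ)
    (hn : (2 * L : ℤ) ^ s ≤ |n - T|) : fourierCoeff (fF s L ε T) n = 0 := by
  rw [fourierCoeff_fF]
  apply Finset.sum_eq_zero
  intro l hl
  rw [if_neg, mul_zero]
  intro h
  rw [mem_Box] at hl
  have := freq_lt (2 * L : ℤ) (by omega) l (fun j => by have := hl j; omega)
  have h2 : n - T = freq (2 * L) l := by linarith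
  rw [h2] at hn
  linarith

/-- digit vectors with support `S` and nonzero digits `±1` -/
def LS (S : Finset (Fin s)) : Finset (Fin s → ℤ) :=
  Fintype.piFinset fun j => if j ∈ S then {1, -1} else {0}

lemma mem_LS {S : Finset (Fin s)} {l : Fin s → ℤ} :
    l ∈ LS S ↔ ∀ j, if j ∈ S then (l j = 1 ∨ l j = -1) else l j = 0 := by
  unfold LS
  rw [Fintype.mem_piFinset]
  apply forall_congr'
  intro j
  by_cases h : j ∈ S <;> simp [h]

lemma LS_subset_Box (L : ℕ) (hL : 2 ≤ L) (S : Finset (Fin s)) : LS S ⊆ Box s L := by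
  intro l hl
  rw [mem_LS] at hl
  rw [mem_Box]
  intro j
  have := hl j
  split_ifs at this with h
  · rcases this with h | h <;> rw [h] <;> simp <;> omega
  · rw [this]; simp; omega

lemma card_LS (S : Finset (Fin s)) : (LS S).card = 2 ^ S.card := by
  unfold LS
  rw [Fintype.card_piFinset]
  have : ∀ j : Fin s, (if j ∈ S then ({1, -1} : Finset ℤ) else {0}).card = if j ∈ S then 2 else 1 := by
    intro j; by_cases h : j ∈ S <;> simp [h]
  simp_rw [this]
  rw [Finset.prod_ite]
  simp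

lemma LS_disjoint {S S' : Finset (Fin s)} (h : S ≠ S') : Disjoint (LS S) (LS S') := by
  rw [Finset.disjoint_left]
  intro l hl hl'
  rw [mem_LS] at hl hl'
  apply h
  ext j
  have h1 := hl j
  have h2 := hl' j
  by_cases a : j ∈ S <;> by_cases b : j ∈ S' <;> simp [a, b] at h1 h2 ⊢
  · rw [h2] at h1; simp at h1
  · rw [h1] at h2; simp at h2

lemma coefF_LS (hs : 0 < s) (L : ℕ) (hL : 2 ≤ L) (ε : ℝ) (S : Finset (Fin s)) (l : Fin s → ℤ)
    (hl : l ∈ LS S) : coefF L ε l = ((ε * (1 - 2 * S.card / s) : ℝ) : ℂ) := by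
  rw [mem_LS] at hl
  have h1 : ∀ i : Fin s, ∏ j : Fin s, kV L (decide (i = j)) (l j) = ((sg S i : ℝ) : ℂ) := by
    intro i
    rw [Finset.prod_eq_single i]
    · have := hl i
      unfold sg
      by_cases hi : i ∈ S
      · rw [if_pos hi] at this ⊢
        rcases this with h | h
        · rw [h, kV_one L hL]; simp [cs]
        · rw [h, kV_neg_one L hL]; simp [cs]
      · rw [if_neg hi] at this ⊢
        rw [this, kV_zero L hL]; simp
    · intro j _ hj
      have := hl j
      have hd : decide (i = j) = false := by simp [Ne.symm hj]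
      rw [hd]
      by_cases hjS : j ∈ S
      · rw [if_pos hjS] at this
        rcases this with h | h
        · rw [h, kV_one L hL]; simp [cs]
        · rw [h, kV_neg_one L hL]; simp [cs]
      · rw [if_neg hjS] at this
        rw [this, kV_zero L hL]
    · intro h; exact absurd (mem_univ i) h
  unfold coefF
  simp_rw [h1]
  rw [← Complex.ofReal_sum, sum_sg, ← Complex.ofReal_mul]
  congr 1
  have : (s : ℝ) ≠ 0 := by exact_mod_cast hs.ne'
  field_simp

end Pool.Agent.Helper958.Kahane
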