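import Pool.Agent.Helper958.KFun

set_option autoImplicit false

namespace Pool.Agent.Helper958.Kahane

open Finset MeasureTheory AddCircle

variable {s : ℕ}

/-- weights of the vertices -/
noncomputable def vW (ρ : Fin s → ℝ) (X : Finset (Fin s)) : ℝ :=
  (∏ j ∈ X, (1 - ρ j) / 2) * ∏ j ∈ univ \ X, (1 + ρ j) / 2

lemma vW_nonneg (ρ : Fin s → ℝ) (hρ : ∀ j, |ρ j| ≤ 1) (X : Finset (Fin s)) : 0 ≤ vW ρ X := by
  unfold vW
  apply mul_nonneg
  · apply Finset.prod_nonneg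
    intro j _
    have := (abs_le.1 (hρ j)).2
    linarith
  · apply Finset.prod_nonneg
    intro j _
    have := (abs_le.1 (hρ j)).1
    linarith

lemma sum_vW (ρ : Fin s → ℝ) : ∑ X : Finset (Fin s), vW ρ X = 1 := by
  unfold vW
  have h := Finset.prod_add (fun j : Fin s => (1 - ρ j) / 2) (fun j => (1 + ρ j) / 2) univ
  rw [Finset.powerset_univ] at h
  rw [← h]
  apply Finset.prod_eq_one
  intro j _
  ring

lemma sum_vW_chi (ρ : Fin s → ℝ) (S : Finset (Fin s)) :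
    ∑ X : Finset (Fin s), vW ρ X * chi S X = ∏ j ∈ S, ρ j := by
  have h := Finset.prod_add (fun j : Fin s => (1 - ρ j) / 2 * sg S j) (fun j => (1 + ρ j) / 2) univ
  rw [Finset.powerset_univ] at h
  have h2 : ∀ X : Finset (Fin s), vW ρ X * chi S X
      = (∏ j ∈ X, (1 - ρ j) / 2 * sg S j) * ∏ j ∈ univ \ X, (1 + ρ j) / 2 := by
    intro X
    rw [chi_symm]
    unfold vW chi
    rw [Finset.prod_mul_distrib]
    ring
  simp_rw [h2]
  rw [← h]
  have h3 : ∀ j : Fin s, (1 - ρ j) / 2 * sg S j + (1 + ρ j) / 2 = if j ∈ S then ρ j else 1 := by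
    intro j
    unfold sg
    split_ifs <;> ring
  simp_rw [h3]
  rw [Finset.prod_ite_mem]
  simp

/-- a multi-affine function is bounded by its values at the vertices -/
lemma multi_affine {κ : Type*} [Fintype κ] (α : κ → ℝ) (A : κ → Finset (Finset (Fin s)))
    (ρ : Fin s → ℝ) (hρ : ∀ j, |ρ j| ≤ 1) (β : ℝ)
    (h : ∀ X : Finset (Fin s), |∑ c, α c * ∑ S ∈ A c, chi S X| ≤ β) :
    |∑ c, α c * ∑ S ∈ A c, ∏ j ∈ S, ρ j| ≤ β := by
  have e : ∑ c, α c * ∑ S ∈ A c, ∏ j ∈ S, ρ j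
      = ∑ X : Finset (Fin s), vW ρ X * ∑ c, α c * ∑ S ∈ A c, chi S X := by
    simp_rw [← sum_vW_chi ρ, Finset.mul_sum]
    rw [Finset.sum_comm]
    conv_rhs => rw [Finset.sum_comm]
    rw [Finset.sum_comm]
    apply Finset.sum_congr rfl
    intro c _
    rw [Finset.sum_comm]
    apply Finset.sum_congr rfl
    intro X _
    apply Finset.sum_congr rfl
    intro S _
    ring
  rw [e]
  calc |∑ X : Finset (Fin s), vW ρ X * ∑ c, α c * ∑ S ∈ A c, chi S X|
      ≤ ∑ X : Finset (Fin s), |vW ρ X * ∑ c, α c * ∑ S ∈ A c, chi S X| := abs_sum_le_sum_abs _ _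
    _ ≤ ∑ X : Finset (Fin s), vW ρ X * β := by
        apply Finset.sum_le_sum
        intro X _
        rw [abs_mul, abs_of_nonneg (vW_nonneg ρ hρ X)]
        exact mul_le_mul_of_nonneg_left (h X) (vW_nonneg ρ hρ X)
    _ = β := by rw [← Finset.sum_mul, sum_vW, one_mul]

lemma sum_LS_fourier (B : ℤ) (S : Finset (Fin s)) (x : UnitAddCircle) :
    ∑ l ∈ LS S, (fourier (freq B l) x : ℂ)
      = 2 ^ S.card * ((∏ j ∈ S, (fourier (B ^ (j : ℕ)) x : ℂ).re : ℝ) : ℂ) := by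
  have h := prod_expand B (fun j : Fin s => if j ∈ S then ({1, -1} : Finset ℤ) else {0})
    (fun _ _ => 1) x
  simp only [one_mul, Finset.prod_const_one] at h
  unfold LS
  rw [← h]
  have h2 : ∀ j : Fin s, ∑ l ∈ (if j ∈ S then ({1, -1} : Finset ℤ) else {0}),
      (fourier (l * B ^ (j : ℕ)) x : ℂ)
      = if j ∈ S then 2 * (((fourier (B ^ (j : ℕ)) x : ℂ).re : ℝ) : ℂ) else 1 := by
    intro j
    by_cases hj : j ∈ S
    · rw [if_pos hj, if_pos hj, Finset.sum_pair (by norm_num), one_mul, neg_one_mul, fourier_neg,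
        Complex.add_conj]
      push_cast
      ring
    · rw [if_neg hj, if_neg hj, Finset.sum_singleton, zero_mul, fourier_zero]
  simp_rw [h2]
  rw [Finset.prod_ite_mem, Finset.univ_inter, Finset.prod_mul_distrib, Finset.prod_const]
  push_cast
  ring

lemma sum_LS_fourier_neg (B : ℤ) (S : Finset (Fin s)) (x : UnitAddCircle) :
    ∑ l ∈ LS S, (fourier (-freq B l) x : ℂ)
      = 2 ^ S.card * ((∏ j ∈ S, (fourier (B ^ (j : ℕ)) x : ℂ).re : ℝ) : ℂ) := by
  simp_rw [fourier_neg]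
  rw [← map_sum, sum_LS_fourier, map_mul, Complex.conj_ofReal, map_pow, Complex.conj_ofNat]

/-- frequencies of a family of supports -/
noncomputable def NS (T B : ℤ) (A : Finset (Finset (Fin s))) : Finset ℤ :=
  (A.biUnion LS).image fun l => T + freq B l

lemma mem_NS {T B : ℤ} {A : Finset (Finset (Fin s))} {n : ℤ} :
    n ∈ NS T B A ↔ ∃ S ∈ A, ∃ l ∈ LS S, T + freq B l = n := by
  unfold NS
  simp only [mem_image, mem_biUnion]
  constructor
  · rintro ⟨l, ⟨S, hS, hl⟩, h⟩; exact ⟨S, hS, l, hl, h⟩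
  · rintro ⟨S, hS, l, hl, h⟩; exact ⟨l, ⟨S, hS, hl⟩, h⟩

lemma NS_injOn (T : ℤ) (L : ℕ) (hL : 2 ≤ L) (A : Finset (Finset (Fin s))) :
    Set.InjOn (fun l => T + freq (2 * (L : ℤ)) l) (A.biUnion LS : Set (Fin s → ℤ)) := by
  intro l hl l' hl' h
  simp only [coe_biUnion, Set.mem_iUnion, mem_coe] at hl hl'
  obtain ⟨S, _, hl⟩ := hl
  obtain ⟨S', _, hl'⟩ := hl'
  have h1 := mem_Box.1 (LS_subset_Box L hL S hl)
  have h2 := mem_Box.1 (LS_subset_Box L hL S' hl')
  exact freq_inj L (by omega) l l' h1 h2 (by simpa using h)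

lemma sum_NS {M : Type*} [AddCommMonoid M] (T : ℤ) (L : ℕ) (hL : 2 ≤ L)
    (A : Finset (Finset (Fin s))) (F : ℤ → M) :
    ∑ n ∈ NS T (2 * L) A, F n = ∑ S ∈ A, ∑ l ∈ LS S, F (T + freq (2 * (L : ℤ)) l) := by
  unfold NS
  rw [Finset.sum_image (NS_injOn T L hL A), Finset.sum_biUnion]
  intro S _ S' _ hne
  exact LS_disjoint hne

lemma card_NS (T : ℤ) (L : ℕ) (hL : 2 ≤ L) (A : Finset (Finset (Fin s))) (w : ℕ)
    (hA : ∀ S ∈ A, S.card = w) : (NS T (2 * L) A).card = A.card * 2 ^ w := by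
  rw [Finset.card_eq_sum_ones, sum_NS T L hL]
  simp_rw [← Finset.card_eq_sum_ones, card_LS]
  rw [Finset.sum_congr rfl (fun S hS => by rw [hA S hS]), Finset.sum_const, smul_eq_mul]

lemma NS_disjoint (T : ℤ) (L : ℕ) (hL : 2 ≤ L) (A A' : Finset (Finset (Fin s)))
    (h : Disjoint A A') : Disjoint (NS T (2 * L) A) (NS T (2 * L) A') := by
  rw [Finset.disjoint_left]
  intro n hn hn'
  rw [mem_NS] at hn hn'
  obtain ⟨S, hS, l, hl, e⟩ := hn
  obtain ⟨S', hS', l', hl', e'⟩ := hn'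
  have h1 := mem_Box.1 (LS_subset_Box L hL S hl)
  have h2 := mem_Box.1 (LS_subset_Box L hL S' hl')
  have : l = l' := freq_inj L (by omega) l l' h1 h2 (by linarith)
  subst this
  have hSS : S = S' := by
    by_contra hne
    exact Finset.disjoint_left.1 (LS_disjoint hne) hl hl'
  subst hSS
  exact Finset.disjoint_left.1 h hS hS'

/-- sup norm of the block functional -/
lemma sup_bound {κ : Type*} [Fintype κ] (T : ℤ) (L : ℕ) (hL : 2 ≤ L) (α : κ → ℝ) (w : κ → ℕ)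
    (A : κ → Finset (Finset (Fin s))) (hA : ∀ c, ∀ S ∈ A c, S.card = w c) (β : ℝ)
    (h : ∀ X : Finset (Fin s), |∑ c, α c / (A c).card * ∑ S ∈ A c, chi S X| ≤ β)
    (x : UnitAddCircle) :
    ‖∑ c, ((α c / ((NS T (2 * L) (A c)).card : ℝ) : ℝ) : ℂ) *
      ∑ n ∈ NS T (2 * L) (A c), (fourier (-n) x : ℂ)‖ ≤ β := by
  have e : ∑ c, ((α c / ((NS T (2 * L) (A c)).card : ℝ) : ℝ) : ℂ) *
      ∑ n ∈ NS T (2 * L) (A c), (fourier (-n) x : ℂ)
      = (fourier (-T) x : ℂ) * ((∑ c, α c / (A c).card * ∑ S ∈ A c,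
        ∏ j ∈ S, (fourier ((2 * L : ℤ) ^ (j : ℕ)) x : ℂ).re : ℝ) : ℂ) := by
    push_cast
    rw [Finset.mul_sum]
    apply Finset.sum_congr rfl
    intro c _
    rw [sum_NS T L hL, card_NS T L hL (A c) (w c) (hA c)]
    have h2 : ∀ S ∈ A c, ∑ l ∈ LS S, (fourier (-(T + freq (2 * (L : ℤ)) l)) x : ℂ)
        = (fourier (-T) x : ℂ) * (2 ^ (w c) * ∏ j ∈ S, (((fourier ((2 * L : ℤ) ^ (j : ℕ)) x : ℂ).re : ℝ) : ℂ)) := by
      intro S hS
      simp_rw [neg_add, fourier_add]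
      rw [← Finset.mul_sum, sum_LS_fourier_neg, hA c S hS]
      push_cast
      rfl
    rw [Finset.sum_congr rfl h2, ← Finset.mul_sum, ← Finset.mul_sum]
    by_cases hc : (A c).card = 0
    · rw [hc]; simp
    · have hc' : ((A c).card : ℂ) ≠ 0 := by exact_mod_cast hc
      push_cast
      field_simp
  rw [e, norm_mul, norm_fourier_apply, one_mul, Complex.norm_real, Real.norm_eq_abs]
  apply multi_affine (fun c => α c / (A c).card) A _ _ β h
  intro j
  refine (Complex.abs_re_le_norm _).trans ?_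
  rw [norm_fourier_apply]

end Pool.Agent.Helper958.Kahane
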