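import Pool.Agent.Helper958.KFinal

set_option autoImplicit false

namespace Pool.Agent.Helper958.Kahane

open MeasureTheory AddCircle Filter Topology

/-- averaging functional -/
noncomputable def av (c : ℝ) (N : Bool → Finset ℤ) : L1 →L[ℂ] ℂ :=
  ∑ b, ((sn b / c / ((N b).card : ℝ) : ℝ) : ℂ) • ∑ n ∈ N b, cf n

lemma av_apply (c : ℝ) (N : Bool → Finset ℤ) (h : L1) :
    av c N h = ∑ b, ((sn b / c / ((N b).card : ℝ) : ℝ) : ℂ) * ∑ n ∈ N b, cf n h := by
  unfold av
  simp [Finset.mul_sum]

lemma av_diff_bound (c c' : ℝ) (N P : Bool → Finset ℤ) (C : ℝ) (hC : 0 ≤ C)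
    (hb : ∀ x : UnitAddCircle,
        ‖(∑ b, ((sn b / c / ((N b).card : ℝ) : ℝ) : ℂ) * ∑ n ∈ N b, (fourier (-n) x : ℂ))
          - ∑ b, ((sn b / c' / ((P b).card : ℝ) : ℝ) : ℂ) * ∑ n ∈ P b, (fourier (-n) x : ℂ)‖ ≤ C) :
    ‖av c N - av c' P‖ ≤ C := by
  apply ContinuousLinearMap.opNorm_le_bound _ hC
  intro h
  set g : C(UnitAddCircle, ℂ) :=
    (∑ b, ((sn b / c / ((N b).card : ℝ) : ℝ) : ℂ) • ∑ n ∈ N b, fourier (-n))
      - ∑ b, ((sn b / c' / ((P b).card : ℝ) : ℝ) : ℂ) • ∑ n ∈ P b, fourier (-n) with hg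
  have hgx : ∀ x, g x = (∑ b, ((sn b / c / ((N b).card : ℝ) : ℝ) : ℂ) * ∑ n ∈ N b, (fourier (-n) x : ℂ))
          - ∑ b, ((sn b / c' / ((P b).card : ℝ) : ℝ) : ℂ) * ∑ n ∈ P b, (fourier (-n) x : ℂ) := by
    intro x
    rw [hg]
    simp only [ContinuousMap.sub_apply, ContinuousMap.coe_sum, Finset.sum_apply,
      ContinuousMap.coe_smul, Pi.smul_apply, smul_eq_mul]
  have key := bound_functional g C (fun x => by rw [hgx]; exact hb x) h
  have hint : ∀ n : ℤ, Integrable (fun x => (fourier (-n) x : ℂ) * (h : UnitAddCircle → ℂ) x) haarAddCircle :=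
    fun n => (L1_integrable h).fourier_smul (-n)
  have hI : ∀ (d : ℝ) (Q : Bool → Finset ℤ),
      ∫ x, (∑ b, ((sn b / d / ((Q b).card : ℝ) : ℝ) : ℂ) * ∑ n ∈ Q b, (fourier (-n) x : ℂ))
        * (h : UnitAddCircle → ℂ) x ∂haarAddCircle = av d Q h := by
    intro d Q
    have e1 : ∀ x, (∑ b, ((sn b / d / ((Q b).card : ℝ) : ℝ) : ℂ) * ∑ n ∈ Q b, (fourier (-n) x : ℂ))
        * (h : UnitAddCircle → ℂ) x
        = ∑ b, ((sn b / d / ((Q b).card : ℝ) : ℝ) : ℂ) * ∑ n ∈ Q b, (fourier (-n) x : ℂ)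
        * (h : UnitAddCircle → ℂ) x := by
      intro x
      rw [Finset.sum_mul]
      apply Finset.sum_congr rfl
      intro b _
      rw [mul_assoc, Finset.sum_mul]
    simp_rw [e1]
    rw [integral_finsetSum]
    · rw [av_apply]
      apply Finset.sum_congr rfl
      intro b _
      rw [integral_const_mul, integral_finsetSum]
      · rfl
      · intro n _; exact hint n
    · intro b _
      apply Integrable.const_mul
      exact integrable_finsetSum _ fun n _ => hint n
  have hInt : ∀ (d : ℝ) (Q : Bool → Finset ℤ),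
      Integrable (fun x => (∑ b, ((sn b / d / ((Q b).card : ℝ) : ℝ) : ℂ) * ∑ n ∈ Q b, (fourier (-n) x : ℂ))
        * (h : UnitAddCircle → ℂ) x) haarAddCircle := by
    intro d Q
    have e1 : ∀ x, (∑ b, ((sn b / d / ((Q b).card : ℝ) : ℝ) : ℂ) * ∑ n ∈ Q b, (fourier (-n) x : ℂ))
        * (h : UnitAddCircle → ℂ) x
        = ∑ b, ((sn b / d / ((Q b).card : ℝ) : ℝ) : ℂ) * ∑ n ∈ Q b, (fourier (-n) x : ℂ)
        * (h : UnitAddCircle → ℂ) x := by
      intro x
      rw [Finset.sum_mul]
      apply Finset.sum_congr rfl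
      intro b _
      rw [mul_assoc, Finset.sum_mul]
    simp_rw [e1]
    apply integrable_finsetSum
    intro b _
    apply Integrable.const_mul
    exact integrable_finsetSum _ fun n _ => hint n
  have e2 : ∫ x, g x * (h : UnitAddCircle → ℂ) x ∂haarAddCircle = av c N h - av c' P h := by
    rw [← hI c N, ← hI c' P, ← integral_sub (hInt c N) (hInt c' P)]
    apply integral_congr_ae
    refine Filter.Eventually.of_forall fun x => ?_
    simp only
    rw [hgx, sub_mul]
  rw [e2] at key
  simpa using key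

lemma sn_sq (b : Bool) : sn b * sn b = 1 := by cases b <;> simp [sn]

theorem main :
    ∃ (ι : Type) (u v : ι → ℤ), Function.Injective u ∧ Function.Injective v ∧ (∀ i j, u i ≠ v j) ∧
      ∃ (Λ : L1 →L[ℂ] ℂ) (f : L1), f ∈ Alg u v ∧ Λ f = 1 ∧
        ∀ e ∈ Alg u v, (∀ n, cf n e * cf n e = cf n e) → Λ e = 0 := by
  choose N P F hNb hPb hNN hPP hNP hNc hPc hint hzero hNv hPv hsup using fun k => block k (TT k)
  -- block membership
  have hcard : ∀ k b, (N k b).card = (P (k + 1) b).card := by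
    intro k b
    rw [hNc, hPc, count_eq]
  have hNpos : ∀ k b, 0 < (N k b).card := by
    intro k b
    rw [hNc]
    unfold MN
    positivity
  have θ : ∀ k b, (↥(N k b)) ≃ (↥(P (k + 1) b)) := fun k b => Finset.equivOfCardEq (hcard k b)
  let ι : Type := Σ k : ℕ, Σ b : Bool, ↥(N k b)
  let u : ι → ℤ := fun i => (i.2.2 : ℤ)
  let v : ι → ℤ := fun i => (θ i.1 i.2.1 i.2.2 : ℤ)
  have huN : ∀ i : ι, u i ∈ N i.1 i.2.1 := fun i => i.2.2.2
  have hvP : ∀ i : ι, v i ∈ P (i.1 + 1) i.2.1 := fun i => (θ i.1 i.2.1 i.2.2).2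
  have hu : Function.Injective u := by
    rintro ⟨k, b, n⟩ ⟨k', b', n'⟩ h
    have h1 : (n : ℤ) ∈ N k b := n.2
    have h2 : (n' : ℤ) ∈ N k' b' := n'.2
    have h3 : (n : ℤ) = n' := h
    have hk : k = k' := by
      rw [← h3] at h2
      exact blk_unique (hNb k b _ h1) (hNb k' b' _ h2)
    subst hk
    have hb : b = b' := by
      by_contra hne
      rw [← h3] at h2
      cases b <;> cases b'
      · exact hne rfl
      · exact Finset.disjoint_left.1 (hNN k) h2 h1
      · exact Finset.disjoint_left.1 (hNN k) h1 h2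
      · exact hne rfl
    subst hb
    have : n = n' := Subtype.ext h3
    rw [this]
  have hv : Function.Injective v := by
    rintro ⟨k, b, n⟩ ⟨k', b', n'⟩ h
    have h1 : ((θ k b n : ↥(P (k + 1) b)) : ℤ) ∈ P (k + 1) b := (θ k b n).2
    have h2 : ((θ k' b' n' : ↥(P (k' + 1) b')) : ℤ) ∈ P (k' + 1) b' := (θ k' b' n').2
    have h3 : ((θ k b n : ↥(P (k + 1) b)) : ℤ) = ((θ k' b' n' : ↥(P (k' + 1) b')) : ℤ) := h
    have hk : k = k' := by
      rw [← h3] at h2
      have := blk_unique (hPb (k + 1) b _ h1) (hPb (k' + 1) b' _ h2)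
      omega
    subst hk
    have hb : b = b' := by
      by_contra hne
      rw [← h3] at h2
      cases b <;> cases b'
      · exact hne rfl
      · exact Finset.disjoint_left.1 (hPP (k + 1)) h2 h1
      · exact Finset.disjoint_left.1 (hPP (k + 1)) h1 h2
      · exact hne rfl
    subst hb
    have : n = n' := (θ k b).injective (Subtype.ext h3)
    rw [this]
  have huv : ∀ i j, u i ≠ v j := by
    intro i j h
    have h1 := huN i
    have h2 := hvP j
    rw [← h] at h2
    have hk := blk_unique (hNb _ _ _ h1) (hPb _ _ _ h2)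
    rw [← hk] at h2
    exact Finset.disjoint_left.1 (hNP i.1 i.2.1 j.2.1) h1 h2
  -- functionals
  let AN : ℕ → (L1 →L[ℂ] ℂ) := fun k => av (2 * (1 / 2) ^ k) (N k)
  let AP : ℕ → (L1 →L[ℂ] ℂ) := fun k => av (4 * (1 / 2) ^ k) (P k)
  let Θ : ℕ → (L1 →L[ℂ] ℂ) := fun k => match k with
    | 0 => AN 0
    | k + 1 => AN (k + 1) - AP (k + 1)
  have hΘn : ∀ k, ‖Θ (k + 1)‖ ≤ 3 / 2 * ((9 / 10) ^ (k + 1) + (1 / 2) ^ (k + 1)) := by
    intro k
    exact av_diff_bound _ _ _ _ _ (by positivity) (hsup (k + 1))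
  have hΘs : Summable Θ := by
    rw [← summable_nat_add_iff 1]
    apply Summable.of_norm_bounded (g := fun k : ℕ => 3 / 2 * ((9 / 10 : ℝ) ^ (k + 1) + (1 / 2) ^ (k + 1)))
    · apply Summable.mul_left
      apply Summable.add
      · exact (summable_nat_add_iff 1).2 (summable_geometric_of_lt_one (by norm_num) (by norm_num))
      · exact (summable_nat_add_iff 1).2 (summable_geometric_of_lt_one (by norm_num) (by norm_num))
    · exact hΘn
  let Λ : L1 →L[ℂ] ℂ := ∑' k, Θ k
  -- pairing
  have hpair : ∀ h ∈ Alg u v, ∀ k, AP (k + 1) h = AN k h := by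
    intro h hh k
    show av (4 * (1 / 2) ^ (k + 1)) (P (k + 1)) h = av (2 * (1 / 2) ^ k) (N k) h
    rw [av_apply, av_apply]
    apply Finset.sum_congr rfl
    intro b _
    rw [← hcard k b]
    have e1 : (4 * (1 / 2 : ℝ) ^ (k + 1)) = 2 * (1 / 2) ^ k := by rw [pow_succ]; ring
    rw [e1]
    congr 1
    rw [← Finset.sum_coe_sort (P (k + 1) b), ← Finset.sum_coe_sort (N k b)]
    rw [← Equiv.sum_comp (θ k b)]
    apply Finset.sum_congr rfl
    intro n _
    exact (hh ⟨k, b, n⟩).symm
  have hpart : ∀ h ∈ Alg u v, ∀ K, ∑ k ∈ Finset.range (K + 1), Θ k h = AN K h := by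
    intro h hh K
    induction K with
    | zero => simp [Θ]
    | succ K ih =>
      rw [Finset.sum_range_succ, ih]
      show AN K h + (AN (K + 1) - AP (K + 1)) h = AN (K + 1) h
      rw [sub_apply, hpair h hh K]
      ring
  have hlim : ∀ h ∈ Alg u v, Tendsto (fun K => AN K h) atTop (𝓝 (Λ h)) := by
    intro h hh
    have h1 : HasSum (fun k => Θ k h) (Λ h) :=
      hΘs.hasSum.mapL (ContinuousLinearMap.apply ℂ ℂ h)
    have h2 := h1.tendsto_sum_nat
    have h3 := (tendsto_add_atTop_iff_nat 1).2 h2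
    refine h3.congr (fun K => ?_)
    exact hpart h hh K
  -- the function
  have hFs : Summable (fun k => toL (F k)) := by
    apply Summable.of_norm_bounded (g := fun k : ℕ => 6144 / ((k : ℝ) + 1) ^ 2)
    · have h1 : Summable (fun k : ℕ => 1 / ((k : ℝ)) ^ 2) := Real.summable_one_div_nat_pow.2 (by norm_num)
      have h2 := (summable_nat_add_iff 1).2 h1
      have h3 := h2.mul_left 6144
      refine h3.congr (fun k => ?_)
      push_cast
      ring
    · intro k
      rw [norm_toL]
      exact hint k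
  let f : L1 := ∑' k, toL (F k)
  have hcf : ∀ n k, |n - TT k| < RR k → cf n f = fourierCoeff (F k) n := by
    intro n k hn
    show cf n (∑' k, toL (F k)) = _
    rw [ContinuousLinearMap.map_tsum _ hFs, tsum_eq_single k]
    · rw [cf_toL]
    · intro j hj
      rw [cf_toL]
      apply hzero j
      by_contra hcon
      push Not at hcon
      exact hj (blk_unique hcon hn)
  have hfA : f ∈ Alg u v := by
    intro i
    have h1 := huN i
    have h2 := hvP i
    rw [hcf _ _ (hNb _ _ _ h1), hcf _ _ (hPb _ _ _ h2), hNv _ _ _ h1, hPv _ _ _ h2]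
    congr 1
    rw [pow_succ]
    ring
  refine ⟨ι, u, v, hu, hv, huv, Λ, f, hfA, ?_, ?_⟩
  · have h1 : ∀ K, AN K f = 1 := by
      intro K
      show av (2 * (1 / 2) ^ K) (N K) f = 1
      rw [av_apply]
      have h2 : ∀ b, ((sn b / (2 * (1 / 2) ^ K) / ((N K b).card : ℝ) : ℝ) : ℂ) * ∑ n ∈ N K b, cf n f
          = 1 / 2 := by
        intro b
        have h3 : ∀ n ∈ N K b, cf n f = ((sn b * (1 / 2) ^ K : ℝ) : ℂ) := by
          intro n hn
          rw [hcf _ _ (hNb _ _ _ hn), hNv _ _ _ hn]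
        rw [Finset.sum_congr rfl h3, Finset.sum_const, nsmul_eq_mul]
        have h4 : ((N K b).card : ℝ) ≠ 0 := by
          have := hNpos K b
          positivity
        have h5 : (sn b / (2 * (1 / 2) ^ K) / ((N K b).card : ℝ)) * (((N K b).card : ℝ) * (sn b * (1 / 2) ^ K))
            = 1 / 2 := by
          have h6 : (sn b / (2 * (1 / 2) ^ K) / ((N K b).card : ℝ)) * (((N K b).card : ℝ) * (sn b * (1 / 2) ^ K))
            = (sn b * sn b) / 2 := by
            field_simp
          rw [h6, sn_sq]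
        rw [← Complex.ofReal_natCast, ← Complex.ofReal_mul, ← Complex.ofReal_mul, h5]
        push_cast
        rfl
      rw [Fintype.sum_bool, h2, h2]
      norm_num
    have h2 := hlim f hfA
    simp_rw [h1] at h2
    exact (tendsto_nhds_unique h2 tendsto_const_nhds)
  · intro e he hid
    obtain ⟨R, hR⟩ := riemann_lebesgue e (1 / 2) (by norm_num)
    have hz : ∀ n, R ≤ |n| → cf n e = 0 := by
      intro n hn
      have h1 := hR n hn
      have h2 := hid n
      have h3 : cf n e * (cf n e - 1) = 0 := by rw [mul_sub, h2]; ring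
      rcases mul_eq_zero.1 h3 with h | h
      · exact h
      · exfalso
        have : cf n e = 1 := sub_eq_zero.1 h
        rw [this] at h1
        norm_num at h1
    have h1 : ∀ K : ℕ, R.toNat ≤ K → AN K e = 0 := by
      intro K hK
      show av (2 * (1 / 2) ^ K) (N K) e = 0
      rw [av_apply]
      apply Finset.sum_eq_zero
      intro b _
      rw [Finset.sum_eq_zero, mul_zero]
      intro n hn
      apply hz
      have h2 := hNb K b n hn
      have h3 := Off_ge K
      unfold TT at h2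
      rw [abs_lt] at h2
      have h4 : (0 : ℤ) ≤ n := by omega
      rw [abs_of_nonneg h4]
      omega
    have h2 := hlim e he
    have h3 : Tendsto (fun K => AN K e) atTop (𝓝 0) := by
      apply tendsto_const_nhds.congr'
      filter_upwards [eventually_ge_atTop R.toNat] with K hK
      exact (h1 K hK).symm
    exact tendsto_nhds_unique h2 h3

end Pool.Agent.Helper958.Kahane
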