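import Mathlib

set_option autoImplicit false

namespace Pool.Agent.Helper958.Kahane

open Finset Real

lemma exp_le_of_small (x : ℝ) (hx : |x| ≤ 1) : exp x ≤ 1 + x + x ^ 2 := by
  have := Real.abs_exp_sub_one_sub_id_le hx
  linarith [le_abs_self (exp x - 1 - x)]

section
variable {ι Y : Type*} [DecidableEq ι] [Fintype Y]

/-- potential -/
noncomputable def pot (l : ℝ) (u : ι → Y → ℝ) (P : Finset ι) : ℝ :=
  ∑ y, (exp (l * ∑ n ∈ P, u n y) + exp (-(l * ∑ n ∈ P, u n y)))

omit [DecidableEq ι] in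
lemma sum_exp_le (E : Finset ι) (v : ι → ℝ) (l : ℝ) (hv : ∀ n ∈ E, |v n| ≤ 2) (h0 : ∑ n ∈ E, v n = 0)
    (hl : |2 * l| ≤ 1) : ∑ n ∈ E, exp (l * v n) ≤ E.card * (1 + 4 * l ^ 2) := by
  have h : ∀ n ∈ E, exp (l * v n) ≤ 1 + l * v n + 4 * l ^ 2 := by
    intro n hn
    have hvn := hv n hn
    have h1 : |l * v n| ≤ 1 := by
      rw [abs_mul]
      rw [abs_mul, abs_two] at hl
      nlinarith [abs_nonneg l, abs_nonneg (v n)]
    refine (exp_le_of_small _ h1).trans ?_
    have : (v n) ^ 2 ≤ 4 := by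
      rw [← sq_abs]; nlinarith [abs_nonneg (v n)]
    have : (l * v n) ^ 2 ≤ 4 * l ^ 2 := by
      rw [mul_pow]; nlinarith [sq_nonneg l]
    linarith
  refine (Finset.sum_le_sum h).trans ?_
  rw [Finset.sum_add_distrib, Finset.sum_add_distrib, ← Finset.mul_sum, h0]
  simp only [Finset.sum_const, nsmul_eq_mul]
  linarith

lemma pot_step (E P : Finset ι) (u : ι → Y → ℝ) (l : ℝ)
    (hu : ∀ n ∈ E, ∀ y, |u n y| ≤ 2) (h0 : ∀ y, ∑ n ∈ E, u n y = 0) (hl : |2 * l| ≤ 1) :
    ∑ n ∈ E \ P, pot l u (insert n P) ≤ E.card * (1 + 4 * l ^ 2) * pot l u P := by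
  have h1 : ∀ n ∈ E \ P, pot l u (insert n P)
      = ∑ y, (exp (l * u n y) * exp (l * ∑ n ∈ P, u n y)
        + exp (-l * u n y) * exp (-(l * ∑ n ∈ P, u n y))) := by
    intro n hn
    rw [mem_sdiff] at hn
    unfold pot
    apply Finset.sum_congr rfl
    intro y _
    rw [Finset.sum_insert hn.2, ← Real.exp_add, ← Real.exp_add]
    congr 2 <;> ring
  rw [Finset.sum_congr rfl h1]
  calc ∑ n ∈ E \ P, ∑ y, (exp (l * u n y) * exp (l * ∑ n ∈ P, u n y)
        + exp (-l * u n y) * exp (-(l * ∑ n ∈ P, u n y)))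
      ≤ ∑ n ∈ E, ∑ y, (exp (l * u n y) * exp (l * ∑ n ∈ P, u n y)
        + exp (-l * u n y) * exp (-(l * ∑ n ∈ P, u n y))) := by
        apply Finset.sum_le_sum_of_subset_of_nonneg sdiff_subset
        intro n _ _
        positivity
    _ = ∑ y, ((∑ n ∈ E, exp (l * u n y)) * exp (l * ∑ n ∈ P, u n y)
        + (∑ n ∈ E, exp (-l * u n y)) * exp (-(l * ∑ n ∈ P, u n y))) := by
        rw [Finset.sum_comm]
        apply Finset.sum_congr rfl
        intro y _
        rw [Finset.sum_add_distrib, Finset.sum_mul, Finset.sum_mul]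
    _ ≤ ∑ y, ((E.card * (1 + 4 * l ^ 2)) * exp (l * ∑ n ∈ P, u n y)
        + (E.card * (1 + 4 * l ^ 2)) * exp (-(l * ∑ n ∈ P, u n y))) := by
        apply Finset.sum_le_sum
        intro y _
        have a1 := sum_exp_le E (fun n => u n y) l (fun n hn => hu n hn y) (h0 y) hl
        have a2 := sum_exp_le E (fun n => u n y) (-l) (fun n hn => hu n hn y) (h0 y)
          (by rw [mul_neg, abs_neg]; exact hl)
        rw [neg_sq] at a2
        gcongr
    _ = _ := by
        unfold pot
        rw [Finset.mul_sum]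
        apply Finset.sum_congr rfl
        intro y _
        ring

/-- **Selection lemma.** -/
theorem select (E : Finset ι) (u : ι → Y → ℝ) (hu : ∀ n ∈ E, ∀ y, |u n y| ≤ 2)
    (h0 : ∀ y, ∑ n ∈ E, u n y = 0) (δ : ℝ) (hδ : 0 < δ) (hδ1 : δ ≤ 1) (M : ℕ)
    (hM : 36 * log (2 * Fintype.card Y) ≤ δ ^ 2 * M) (hE : 72 * (M : ℝ) ≤ δ ^ 2 * E.card) :
    ∃ P ⊆ E, P.card = M ∧ ∀ y, |∑ n ∈ P, u n y| ≤ δ * M := by
  rcases Nat.eq_zero_or_pos M with rfl | hMpos
  · exact ⟨∅, empty_subset _, rfl, fun y => by simp⟩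
  have hMr : (1 : ℝ) ≤ M := by exact_mod_cast hMpos
  set l : ℝ := δ / 12 with hl
  have hlpos : 0 < l := by positivity
  have hl2 : |2 * l| ≤ 1 := by
    rw [abs_of_pos (by positivity)]; linarith
  have hEc : 72 * (M : ℝ) ≤ E.card := by
    refine hE.trans ?_
    have : δ ^ 2 ≤ 1 := by nlinarith
    have h2 : (0 : ℝ) ≤ E.card := Nat.cast_nonneg _
    nlinarith
  have hEpos : (0 : ℝ) < E.card := by linarith
  obtain ⟨c, hc⟩ : ∃ c : ℝ, c = 4 * l ^ 2 + 2 * M / E.card := ⟨_, rfl⟩
  have hc0 : 0 ≤ c := by rw [hc]; positivity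
  have key : ∀ m : ℕ, m ≤ M → ∃ P ⊆ E, P.card = m ∧
      pot l u P ≤ 2 * Fintype.card Y * exp (m * c) := by
    intro m
    induction m with
    | zero =>
      intro _
      refine ⟨∅, empty_subset _, rfl, ?_⟩
      unfold pot
      simp only [Finset.sum_empty, mul_zero, neg_zero, exp_zero, Finset.sum_const, card_univ,
        nsmul_eq_mul, Nat.cast_zero, zero_mul, mul_one]
      linarith
    | succ m ih =>
      intro hm
      obtain ⟨P, hPE, hPc, hPot⟩ := ih (by omega)
      have hcard : (E \ P).card = E.card - m := by rw [card_sdiff_of_subset hPE, hPc]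
      have hmM : (m : ℝ) ≤ M := by exact_mod_cast (by omega : m ≤ M)
      have hmE : m ≤ E.card := by
        have : (m : ℝ) ≤ E.card := by linarith
        exact_mod_cast this
      have hcard' : ((E \ P).card : ℝ) = E.card - m := by rw [hcard, Nat.cast_sub hmE]
      have hge : (E.card : ℝ) - M ≤ (E \ P).card := by rw [hcard']; linarith
      have hpos : (0 : ℝ) < (E \ P).card := by linarith
      have hne : (E \ P).Nonempty := by
        rw [← card_pos]; exact_mod_cast hpos
      have hstep := pot_step E P u l hu h0 hl2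
      obtain ⟨n, hn, hnle⟩ : ∃ n ∈ E \ P, pot l u (insert n P)
          ≤ E.card * (1 + 4 * l ^ 2) * pot l u P / (E \ P).card := by
        by_contra hcon
        push Not at hcon
        have : ∑ n ∈ E \ P, E.card * (1 + 4 * l ^ 2) * pot l u P / (E \ P).card
            < ∑ n ∈ E \ P, pot l u (insert n P) := Finset.sum_lt_sum_of_nonempty hne hcon
        rw [Finset.sum_const, nsmul_eq_mul] at this
        have e : ((E \ P).card : ℝ) * (E.card * (1 + 4 * l ^ 2) * pot l u P / (E \ P).card)
            = E.card * (1 + 4 * l ^ 2) * pot l u P := by field_simp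
        rw [e] at this
        linarith
      rw [mem_sdiff] at hn
      refine ⟨insert n P, insert_subset hn.1 hPE, by rw [card_insert_of_notMem hn.2, hPc], ?_⟩
      have hpot0 : 0 ≤ pot l u P := by unfold pot; positivity
      have hratio : (E.card : ℝ) / (E \ P).card ≤ 1 + 2 * M / E.card := by
        rw [div_le_iff₀ hpos]
        calc (E.card : ℝ) ≤ (1 + 2 * M / E.card) * (E.card - M) := by
              have : (1 + 2 * M / E.card) * (E.card - M)
                  = (E.card : ℝ) + M - 2 * M * M / E.card := by field_simp; ring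
              rw [this]
              have : 2 * (M : ℝ) * M / E.card ≤ M := by
                rw [div_le_iff₀ hEpos]; nlinarith
              linarith
          _ ≤ _ := by
              apply mul_le_mul_of_nonneg_left hge (by positivity)
      calc pot l u (insert n P) ≤ E.card * (1 + 4 * l ^ 2) * pot l u P / (E \ P).card := hnle
        _ = ((E.card : ℝ) / (E \ P).card) * (1 + 4 * l ^ 2) * pot l u P := by ring
        _ ≤ (1 + 2 * M / E.card) * (1 + 4 * l ^ 2) * pot l u P := by gcongr
        _ ≤ (exp (2 * M / E.card) * exp (4 * l ^ 2)) * pot l u P := by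
            apply mul_le_mul_of_nonneg_right _ hpot0
            apply mul_le_mul _ _ (by positivity) (by positivity)
            · rw [add_comm]; exact add_one_le_exp _
            · rw [add_comm]; exact add_one_le_exp _
        _ = exp c * pot l u P := by rw [← exp_add, hc, add_comm (2 * (M : ℝ) / E.card)]
        _ ≤ exp c * (2 * Fintype.card Y * exp (m * c)) := by gcongr
        _ = 2 * Fintype.card Y * exp (((m + 1 : ℕ) : ℝ) * c) := by
            rw [Nat.cast_add, Nat.cast_one, add_mul, one_mul, exp_add]; ring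
  obtain ⟨P, hPE, hPc, hPot⟩ := key M le_rfl
  refine ⟨P, hPE, hPc, fun y => ?_⟩
  have hcardY : 0 < Fintype.card Y := Fintype.card_pos_iff.2 ⟨y⟩
  have hY : (0 : ℝ) < 2 * Fintype.card Y := by positivity
  set S := ∑ n ∈ P, u n y with hS
  have h1 : exp (l * |S|) ≤ pot l u P := by
    unfold pot
    have : exp (l * |S|) ≤ exp (l * S) + exp (-(l * S)) := by
      rcases abs_cases S with ⟨h, _⟩ | ⟨h, _⟩
      · rw [h]; linarith [exp_pos (-(l * S))]
      · rw [h, mul_neg]; linarith [exp_pos (l * S)]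
    refine this.trans ?_
    exact Finset.single_le_sum (f := fun y => exp (l * ∑ n ∈ P, u n y) + exp (-(l * ∑ n ∈ P, u n y)))
      (fun i _ => by positivity) (mem_univ y)
  have h2 : l * |S| ≤ log (2 * Fintype.card Y) + M * c := by
    have : exp (l * |S|) ≤ exp (log (2 * Fintype.card Y) + M * c) := by
      rw [exp_add, exp_log hY]
      exact h1.trans hPot
    exact exp_le_exp.1 this
  have h3 : M * c ≤ δ ^ 2 * M / 36 + δ ^ 2 * M / 36 := by
    rw [hc, mul_add]
    have e1 : (M : ℝ) * (4 * l ^ 2) = δ ^ 2 * M / 36 := by rw [hl]; ring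
    have e2 : (M : ℝ) * (2 * M / E.card) ≤ δ ^ 2 * M / 36 := by
      have : (M : ℝ) * (2 * M / E.card) = 2 * M * M / E.card := by ring
      rw [this, div_le_iff₀ hEpos]
      nlinarith
    linarith
  have h4 : l * |S| ≤ δ ^ 2 * M / 12 := by linarith
  rw [hl] at h4
  have h5 : δ * |S| ≤ δ * (δ * M) := by nlinarith
  exact le_of_mul_le_mul_left h5 hδ

end

end Pool.Agent.Helper958.Kahane
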