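import Pool.Agent.Helper958.KG
import Pool.Agent.Helper958.KBound
import Pool.Agent.Helper958.KSelect

set_option autoImplicit false

namespace Pool.Agent.Helper958.Kahane

open Finset MeasureTheory AddCircle

/-- half of the number of coordinates -/
def hh (k : ℕ) : ℕ := 2 ^ (k + 11)
/-- displacement -/
def DD (k : ℕ) : ℕ := (k + 1) * (k + 2)
/-- displacement gap -/
def gp (k : ℕ) : ℕ := (k + 2) * (k + 5)

lemma gp_eq (k : ℕ) : gp k + DD k = 2 * DD (k + 1) := by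
  unfold gp DD; ring

lemma hh_succ (k : ℕ) : hh (k + 1) = 2 * hh k := by
  unfold hh; rw [← pow_succ']

lemma DD_even (k : ℕ) : Even (DD k) := by
  unfold DD
  exact Nat.even_mul_succ_self (k + 1)

lemma I1 (k : ℕ) : 8 * DD k ^ 2 ≤ hh k := by
  unfold DD hh
  rcases Nat.lt_or_ge k 4 with h | h
  · interval_cases k <;> norm_num
  · induction k, h using Nat.le_induction with
    | base => norm_num
    | succ n hn ih =>
      have e : 2 ^ (n + 1 + 11) = 2 * 2 ^ (n + 11) := by rw [← pow_succ']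
      rw [e]
      refine le_trans ?_ (Nat.mul_le_mul_left 2 ih)
      have h1 : (n + 3) ^ 2 ≤ 2 * (n + 1) ^ 2 := by nlinarith
      calc 8 * ((n + 1 + 1) * (n + 1 + 2)) ^ 2 = 8 * (n + 2) ^ 2 * (n + 3) ^ 2 := by ring
        _ ≤ 8 * (n + 2) ^ 2 * (2 * (n + 1) ^ 2) := Nat.mul_le_mul_left _ h1
        _ = _ := by ring

lemma I6 (k : ℕ) : k ^ 2 + 17 * k + 51 ≤ hh k := by
  unfold hh
  induction k with
  | zero => norm_num
  | succ n ih =>
    have e : 2 ^ (n + 1 + 11) = 2 * 2 ^ (n + 11) := by rw [← pow_succ']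
    rw [e]
    nlinarith

lemma hh_pos (k : ℕ) : 0 < hh k := by unfold hh; positivity

lemma hh_ge (k : ℕ) : 2048 ≤ hh k := by
  unfold hh
  calc 2048 = 2 ^ 11 := by norm_num
    _ ≤ 2 ^ (k + 11) := Nat.pow_le_pow_right (by norm_num) (by omega)

lemma gp_le (k : ℕ) : gp k ≤ hh k := by
  have := I6 k
  have e : gp k = k ^ 2 + 7 * k + 10 := by unfold gp; ring
  rw [e]; omega

/-- weights of the classes -/
def wt (h d : ℕ) (b : Bool) : ℕ := if b then h - d else h + d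

/-- sizes of the families -/
def MP (k : ℕ) : ℕ := 2 ^ (5 * k + 17)
/-- sizes of the families -/
def MN (k : ℕ) (b : Bool) : ℕ := 2 ^ (5 * (k + 1) + 17 + wt (hh k) (gp k) b)

lemma count_eq (k : ℕ) (b : Bool) :
    MN k b * 2 ^ wt (hh k) (DD k) b = MP (k + 1) * 2 ^ wt (hh (k + 1)) (2 * DD (k + 1)) b := by
  unfold MN MP
  rw [← pow_add, ← pow_add]
  congr 1
  have h1 := gp_eq k
  have h2 := hh_succ k
  have h3 := I1 (k + 1)
  have h4 : 2 * DD (k + 1) ≤ hh (k + 1) := by nlinarith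
  have h5 : DD k ≤ hh k := by nlinarith [I1 k]
  have h6 := gp_le k
  cases b <;> simp only [wt, if_true, if_false, Bool.false_eq_true] <;> omega

lemma choose_lb (h d : ℕ) (hh4 : 4 ≤ h) (hd : 2 * d ^ 2 ≤ h) (b : Bool) :
    (2 : ℝ) ^ (2 * h) ≤ (2 * h : ℝ) * ((2 * h).choose (wt h d b) : ℝ) := by
  have hdh : d ≤ h := by nlinarith
  have hC : ((2 * h).choose (wt h d b)) = (2 * h).choose (h - d) := by
    cases b
    · simp only [wt, Bool.false_eq_true, if_false]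
      rw [← Nat.choose_symm (show h - d ≤ 2 * h by omega)]
      congr 1; omega
    · simp [wt]
  rw [hC]
  have h1 := ratio_sq h d (by omega) hd
  have hCpos : (0 : ℝ) < ((2 * h).choose (h - d) : ℝ) := by
    exact_mod_cast Nat.choose_pos (show h - d ≤ 2 * h by omega)
  have h2 : ((2 : ℝ) ^ (2 * h) / ((2 * h).choose (h - d))) ^ 2 ≤ (2 * h : ℝ) ^ 2 := by
    refine h1.trans ?_
    have : (4 : ℝ) ≤ h := by exact_mod_cast hh4
    nlinarith
  have h3 : (2 : ℝ) ^ (2 * h) / ((2 * h).choose (h - d)) ≤ 2 * h :=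
    le_of_pow_le_pow_left₀ (n := 2) (by norm_num) (by positivity) h2
  rw [div_le_iff₀ hCpos] at h3
  exact h3

/-- families of sets -/
lemma family (h w M : ℕ) (δ : ℝ) (hδ : 0 < δ) (hδ1 : δ ≤ 1) (hM0 : 0 < M)
    (hM : 36 * ((2 * h + 1 : ℝ) * Real.log 2) ≤ δ ^ 2 * M)
    (hE : 72 * (M : ℝ) ≤ δ ^ 2 * ((2 * h).choose w : ℝ)) (hw : w ≤ 2 * h) :
    ∃ A : Finset (Finset (Fin (2 * h))), A.card = M ∧ (∀ S ∈ A, S.card = w) ∧
      ∀ X, |(∑ S ∈ A, chi S X) / M - phi w X| ≤ δ := by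
  have hC : (((2 * h).choose w : ℕ) : ℝ) ≠ 0 := by
    exact_mod_cast (Nat.choose_pos hw).ne'
  obtain ⟨A, hAE, hAc, hA⟩ := select (WC (2 * h) w)
    (fun (S X : Finset (Fin (2 * h))) => chi S X - phi w X) (by
      intro S hS X
      have h1 := abs_chi S X
      have h2 : |phi w X| ≤ 1 := by
        unfold phi
        rw [abs_div, div_le_one (by positivity)]
        calc |∑ S ∈ WC (2 * h) w, chi S X| ≤ ∑ S ∈ WC (2 * h) w, |chi S X| := abs_sum_le_sum_abs _ _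
          _ = |(((2 * h).choose w : ℕ) : ℝ)| := by
            simp_rw [abs_chi]; rw [Finset.sum_const, card_WC]; simp
      calc |chi S X - phi w X| ≤ |chi S X| + |phi w X| := abs_sub _ _
        _ ≤ 2 := by linarith) (by
      intro X
      rw [Finset.sum_sub_distrib, Finset.sum_const, card_WC, nsmul_eq_mul]
      unfold phi
      field_simp
      ring) δ hδ hδ1 M (by
        rw [Fintype.card_finset, Fintype.card_fin]
        push_cast
        rw [← pow_succ', Real.log_pow]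
        push_cast
        exact hM) (by rw [card_WC]; exact hE)
  refine ⟨A, hAc, fun S hS => mem_WC.1 (hAE hS), fun X => ?_⟩
  have hMr : (0 : ℝ) < M := by exact_mod_cast hM0
  have := hA X
  rw [Finset.sum_sub_distrib, Finset.sum_const, hAc, nsmul_eq_mul] at this
  have e : (∑ S ∈ A, chi S X) / M - phi w X = (∑ S ∈ A, chi S X - M * phi w X) / M := by
    field_simp
  rw [e, abs_div, abs_of_pos hMr, div_le_iff₀ hMr]
  exact this

lemma I2 (k : ℕ) (M : ℕ) (hM : MP k ≤ M) :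
    36 * ((2 * (hh k : ℕ) + 1 : ℝ) * Real.log 2) ≤ ((1 / 4 : ℝ) ^ k) ^ 2 * M := by
  have h1 := Real.log_two_lt_d9
  have h2 : (2048 : ℝ) ≤ hh k := by exact_mod_cast hh_ge k
  have h3 : ((1 / 4 : ℝ) ^ k) ^ 2 * (MP k : ℝ) = 64 * hh k := by
    unfold MP hh
    push_cast
    have : ((1 / 4 : ℝ) ^ k) ^ 2 = 1 / 2 ^ (4 * k) := by
      rw [← pow_mul, one_div_pow, show (4 : ℝ) = 2 ^ 2 by norm_num, ← pow_mul]; congr 2; ring
    rw [this, show 5 * k + 17 = 4 * k + (k + 11) + 6 by ring, pow_add, pow_add]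
    field_simp
    norm_num
  have h4 : ((1 / 4 : ℝ) ^ k) ^ 2 * (MP k : ℝ) ≤ ((1 / 4 : ℝ) ^ k) ^ 2 * (M : ℝ) := by
    apply mul_le_mul_of_nonneg_left _ (by positivity)
    exact_mod_cast hM
  refine le_trans ?_ h4
  rw [h3]
  clear h3 h4 hM
  generalize (hh k : ℝ) = H at *
  have h5 : 0 ≤ (2 * H + 1) * (0.6931471808 - Real.log 2) := by
    apply mul_nonneg <;> linarith
  linarith

lemma I4_aux (k H G M : ℕ) (C : ℝ) (h6 : k ^ 2 + 17 * k + 51 ≤ H) (e : G = k ^ 2 + 7 * k + 10)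
    (h1 : (2 : ℝ) ^ (2 * H) ≤ 2 ^ (k + 12) * C)
    (hM : M ≤ 2 ^ (5 * (k + 1) + 17 + (H + G))) :
    72 * (M : ℝ) ≤ ((1 / 4 : ℝ) ^ k) ^ 2 * C := by
  have hM' : (M : ℝ) ≤ 2 ^ (5 * (k + 1) + 17 + (H + G)) := by exact_mod_cast hM
  have h3 : ((1 / 4 : ℝ) ^ k) ^ 2 = 1 / 2 ^ (4 * k) := by
    rw [← pow_mul, one_div_pow, show (4 : ℝ) = 2 ^ 2 by norm_num, ← pow_mul]; congr 2; ring
  rw [h3, one_div, ← div_eq_inv_mul, le_div_iff₀ (by positivity)]
  have h4 : (72 * (M : ℝ) * 2 ^ (4 * k)) * 2 ^ (k + 12) ≤ 2 ^ (2 * H) := by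
    calc (72 * (M : ℝ) * 2 ^ (4 * k)) * 2 ^ (k + 12)
        ≤ (2 ^ 7 * 2 ^ (5 * (k + 1) + 17 + (H + G)) * 2 ^ (4 * k)) * 2 ^ (k + 12) := by
          gcongr
          norm_num
      _ = 2 ^ (7 + (5 * (k + 1) + 17 + (H + G)) + 4 * k + (k + 12)) := by
          rw [← pow_add, ← pow_add, ← pow_add]
      _ ≤ _ := by
          apply pow_le_pow_right₀ (by norm_num)
          rw [e]; omega
  have h5 : (0 : ℝ) < 2 ^ (k + 12) := by positivity
  have h7 := h4.trans h1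
  rw [mul_comm] at h7
  exact le_of_mul_le_mul_left h7 h5

lemma I4 (k d M : ℕ) (hd : 2 * d ^ 2 ≤ hh k) (b : Bool) (hM : M ≤ 2 ^ (5 * (k + 1) + 17 + (hh k + gp k))) :
    72 * (M : ℝ) ≤ ((1 / 4 : ℝ) ^ k) ^ 2 * ((2 * hh k).choose (wt (hh k) d b) : ℝ) := by
  have h1 := choose_lb (hh k) d (by have := hh_ge k; omega) hd b
  have e : gp k = k ^ 2 + 7 * k + 10 := by unfold gp; ring
  have hcast : (2 * (hh k : ℕ) : ℝ) = 2 ^ (k + 12) := by
    unfold hh; push_cast; rw [← pow_succ']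
  rw [hcast] at h1
  exact I4_aux k (hh k) (gp k) M _ (I6 k) e h1 hM

lemma I5 (k : ℕ) : 2048 / (2 * (hh k : ℕ) : ℝ) ^ 5 ≤ ((9 / 20 : ℝ) ^ k) ^ 4 := by
  have hcast : (2 * (hh k : ℕ) : ℝ) = 2 ^ (k + 12) := by
    unfold hh; push_cast; rw [← pow_succ']
  rw [hcast, div_le_iff₀ (by positivity)]
  have e1 : ((2 : ℝ) ^ (k + 12)) ^ 5 = 32 ^ k * 2 ^ 60 := by
    rw [← pow_mul, show (32 : ℝ) = 2 ^ 5 by norm_num, ← pow_mul, ← pow_add]; congr 1; ring
  have e2 : ((9 / 20 : ℝ) ^ k) ^ 4 = ((9 / 20 : ℝ) ^ 4) ^ k := by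
    rw [← pow_mul, ← pow_mul]; congr 1; ring
  rw [e1, e2, ← mul_assoc, ← mul_pow]
  have h1 : (1 : ℝ) ≤ ((9 / 20 : ℝ) ^ 4 * 32) ^ k := one_le_pow₀ (by norm_num)
  nlinarith

end Pool.Agent.Helper958.Kahane
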