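import Mathlib

set_option autoImplicit false

namespace Pool.Agent.Helper958.Kahane

open Finset MeasureTheory AddCircle

/-- the frequency attached to a digit vector -/
def freq {s : ℕ} (B : ℤ) (l : Fin s → ℤ) : ℤ := ∑ j : Fin s, l j * B ^ (j : ℕ)

lemma freq_succ {s : ℕ} (B : ℤ) (l : Fin (s + 1) → ℤ) :
    freq B l = l 0 + B * freq B (fun j => l j.succ) := by
  unfold freq
  rw [Fin.sum_univ_succ, Finset.mul_sum]
  congr 1
  · simp
  · apply Finset.sum_congr rfl
    intro j _
    rw [Fin.val_succ, pow_succ]; ring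

lemma freq_eq_zero {s : ℕ} (B : ℤ) (hB : 0 < B) (l : Fin s → ℤ) (hl : ∀ j, |l j| < B)
    (h : freq B l = 0) : l = 0 := by
  induction s with
  | zero => exact Subsingleton.elim _ _
  | succ s ih =>
    rw [freq_succ] at h
    have h0 : l 0 = 0 := by
      have hdvd : B ∣ l 0 := ⟨- freq B (fun j => l j.succ), by linarith⟩
      exact Int.eq_zero_of_abs_lt_dvd hdvd (hl 0)
    rw [h0, zero_add] at h
    have h1 : freq B (fun j => l j.succ) = 0 := by
      rcases mul_eq_zero.1 h with h | h
      · omega
      · exact h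
    have h2 := ih (fun j => l j.succ) (fun j => hl j.succ) h1
    ext j
    refine Fin.cases ?_ (fun i => ?_) j
    · simpa using h0
    · simpa using congrFun h2 i

lemma freq_sub {s : ℕ} (B : ℤ) (l l' : Fin s → ℤ) : freq B (l - l') = freq B l - freq B l' := by
  unfold freq
  rw [← Finset.sum_sub_distrib]
  apply Finset.sum_congr rfl
  intro j _
  simp [sub_mul]

lemma freq_inj {s : ℕ} (L : ℤ) (hL : 0 < L) (l l' : Fin s → ℤ) (hl : ∀ j, |l j| < L)
    (hl' : ∀ j, |l' j| < L) (h : freq (2 * L) l = freq (2 * L) l') : l = l' := by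
  have : l - l' = 0 := by
    apply freq_eq_zero (2 * L) (by omega)
    · intro j
      have h1 := abs_sub (l j) (l' j)
      have h2 := hl j
      have h3 := hl' j
      rw [Pi.sub_apply]
      omega
    · rw [freq_sub, h, sub_self]
  exact sub_eq_zero.1 this

lemma freq_lt {s : ℕ} (B : ℤ) (hB : 0 < B) (l : Fin s → ℤ) (hl : ∀ j, |l j| < B) :
    |freq B l| < B ^ s := by
  induction s with
  | zero => simp [freq]
  | succ s ih =>
    rw [freq_succ]
    have h1 := ih (fun j => l j.succ) (fun j => hl j.succ)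
    have h2 := hl 0
    have h3 : |l 0 + B * freq B (fun j => l j.succ)| ≤ |l 0| + B * |freq B (fun j => l j.succ)| := by
      refine (abs_add_le _ _).trans ?_
      rw [abs_mul, abs_of_pos hB]
    have h4 : |freq B (fun j => l j.succ)| + 1 ≤ B ^ s := h1
    have h5 : B * (|freq B (fun j => l j.succ)| + 1) ≤ B * B ^ s := by
      exact mul_le_mul_of_nonneg_left h4 hB.le
    rw [pow_succ]
    linarith

lemma fourier_sum {T : ℝ} {ι : Type*} (I : Finset ι) (n : ι → ℤ) (x : AddCircle T) :
    (fourier (∑ i ∈ I, n i) x : ℂ) = ∏ i ∈ I, (fourier (n i) x : ℂ) := by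
  classical
  induction I using Finset.induction_on with
  | empty => simp
  | insert a I ha ih => rw [Finset.sum_insert ha, Finset.prod_insert ha, fourier_add, ih]

/-- product expansion -/
lemma prod_expand {s : ℕ} (B : ℤ) (I : Fin s → Finset ℤ) (c : Fin s → ℤ → ℂ) (x : UnitAddCircle) :
    ∏ j : Fin s, (∑ l ∈ I j, c j l * (fourier (l * B ^ (j : ℕ)) x : ℂ))
      = ∑ l ∈ Fintype.piFinset I, (∏ j, c j (l j)) * (fourier (freq B l) x : ℂ) := by
  rw [Finset.prod_univ_sum]
  apply Finset.sum_congr rfl
  intro l _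
  rw [Finset.prod_mul_distrib, freq, fourier_sum]

lemma integral_fourier (n : ℤ) :
    ∫ x : UnitAddCircle, (fourier n x : ℂ) ∂haarAddCircle = if n = 0 then 1 else 0 := by
  have h := congrFun (fourierCoeff_fourier (T := 1) n) 0
  unfold fourierCoeff at h
  simp only [neg_zero, fourier_zero, one_smul] at h
  rw [h]
  by_cases hn : n = 0
  · simp [hn]
  · simp [hn, Ne.symm hn]

lemma integrable_cont (f : C(UnitAddCircle, ℂ)) : Integrable f haarAddCircle :=
  f.continuous.integrable_of_hasCompactSupport (HasCompactSupport.of_compactSpace _)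

end Pool.Agent.Helper958.Kahane
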